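import Mathlib

set_option autoImplicit false

/-!
# Three-class partitions of a graph with prescribed parities (mod 4 count)

For a finite symmetric relation `a` on `I` and two distinct related points `p q`, the number of
`κ : I → ZMod 3` such that every `v` has an even number of `a`-neighbours outside its class,
except `p` and `q` which have an odd number, is `2` modulo `4`.
-/

namespace Pool.Agent.H416R2.BF

open Finset

theorem even_card_of_inv {α : Type*} [DecidableEq α] (s : Finset α) (g : α → α)
    (hg : ∀ x ∈ s, g x ∈ s) (hgg : ∀ x ∈ s, g (g x) = x) (hne : ∀ x ∈ s, g x ≠ x) :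
    Even s.card := by
  have h : ∑ _x ∈ s, (1 : ZMod 2) = 0 :=
    Finset.sum_involution (fun a _ => g a) (fun _ _ => by decide)
      (fun a ha _ => hne a ha) (fun a ha => hg a ha) (fun a ha => hgg a ha)
  rw [Finset.sum_const, nsmul_eq_mul, mul_one] at h
  exact (ZMod.natCast_eq_zero_iff_even).1 h

theorem four_dvd_card {α : Type*} [DecidableEq α] (s : Finset α) (pr : α → Prop)
    [DecidablePred pr] (a g : α → α)
    (ha : ∀ x ∈ s, a x ∈ s) (haa : ∀ x ∈ s, a (a x) = x)
    (hflip : ∀ x ∈ s, (pr (a x) ↔ ¬ pr x))
    (hg : ∀ x ∈ s, pr x → g x ∈ s) (hgp : ∀ x ∈ s, pr x → pr (g x))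
    (hgg : ∀ x ∈ s, pr x → g (g x) = x) (hne : ∀ x ∈ s, pr x → g x ≠ x) :
    4 ∣ s.card := by
  have h1 : (s.filter pr).card = (s.filter (fun x => ¬ pr x)).card := by
    refine Finset.card_bij (fun x _ => a x) ?_ ?_ ?_
    · intro x hx
      rw [mem_filter] at hx ⊢
      exact ⟨ha x hx.1, by rw [hflip x hx.1]; simpa using hx.2⟩
    · intro x hx y hy hxy
      rw [mem_filter] at hx hy
      rw [← haa x hx.1, ← haa y hy.1]; exact congrArg a hxy
    · intro y hy
      rw [mem_filter] at hy
      refine ⟨a y, ?_, haa y hy.1⟩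
      rw [mem_filter]
      exact ⟨ha y hy.1, (hflip y hy.1).2 hy.2⟩
  have h2 : Even (s.filter pr).card := by
    refine even_card_of_inv _ g ?_ ?_ ?_
    · intro x hx
      rw [mem_filter] at hx ⊢
      exact ⟨hg x hx.1 hx.2, hgp x hx.1 hx.2⟩
    · intro x hx
      rw [mem_filter] at hx
      exact hgg x hx.1 hx.2
    · intro x hx
      rw [mem_filter] at hx
      exact hne x hx.1 hx.2
  have h3 := Finset.card_filter_add_card_filter_not (s := s) pr
  rw [← h1] at h3
  obtain ⟨k, hk⟩ := h2
  exact ⟨k, by omega⟩

variable {I : Type*} [Fintype I] [DecidableEq I]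

/-- colour swap `0 ↔ 1`. -/
def sw : ZMod 3 → ZMod 3 := Equiv.swap 0 1

theorem sw_sw (x : ZMod 3) : sw (sw x) = x := by revert x; decide
theorem sw_inj {x y : ZMod 3} : sw x = sw y ↔ x = y := by revert x y; decide
theorem sw_fix {x : ZMod 3} (h : sw x = x) : x = 2 := by revert x; decide
theorem third_ne {x y : ZMod 3} (h : x ≠ y) : x ≠ -y - x := by revert x y; decide
theorem third_flip {x y : ZMod 3} (h : x ≠ y) : (-y - x = x + 1 ↔ ¬ y = x + 1) := by
  revert x y; decide
theorem third_third (x y : ZMod 3) : -(-y - x) - x = y := by revert x y; decide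
theorem sw_flip {x y : ZMod 3} (h : x ≠ y) : (sw x = sw y + 1 ↔ ¬ x = y + 1) := by
  revert x y; decide

/-- colourings respecting the functional constraint `f`. -/
def PF (f : I → I) : Finset (I → ZMod 3) :=
  univ.filter (fun κ => ∀ v, f v ≠ v → κ (f v) ≠ κ v)

theorem mem_PF {f : I → I} {κ : I → ZMod 3} :
    κ ∈ PF f ↔ ∀ v, f v ≠ v → κ (f v) ≠ κ v := by
  simp [PF]

theorem even_PF (f : I → I) (p : I) (hp : f p ≠ p) : Even (PF f).card := by
  refine even_card_of_inv _ (fun κ v => sw (κ v)) ?_ ?_ ?_
  · intro κ hκ
    rw [mem_PF] at hκ ⊢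
    intro v hv h
    exact hκ v hv (sw_inj.1 h)
  · intro κ _
    funext v
    exact sw_sw _
  · intro κ hκ h
    rw [mem_PF] at hκ
    apply hκ p hp
    rw [sw_fix (congrFun h (f p)), sw_fix (congrFun h p)]

theorem four_dvd_PF_of_not_range (f : I → I) (v w : I) (hv : ∀ u, f u ≠ v) (hwv : w ≠ v)
    (hw : f w ≠ w) : 4 ∣ (PF f).card := by
  have hfv : f v ≠ v := hv v
  refine four_dvd_card (PF f) (fun κ => κ v = κ (f v) + 1)
    (fun κ => Function.update κ v (-(κ v) - κ (f v)))
    (fun κ => Function.update (fun u => sw (κ u)) v (sw (κ (f v)) + 1)) ?_ ?_ ?_ ?_ ?_ ?_ ?_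
  · intro κ hκ
    rw [mem_PF] at hκ ⊢
    intro u hu
    by_cases huv : u = v
    · subst huv
      rw [Function.update_of_ne hfv, Function.update_self]
      exact third_ne (hκ u hu)
    · rw [Function.update_of_ne (hv u), Function.update_of_ne huv]
      exact hκ u hu
  · intro κ _
    funext u
    by_cases huv : u = v
    · subst huv
      simp only [Function.update_self, Function.update_of_ne hfv]
      exact third_third _ _
    · simp only [Function.update_of_ne huv]
  · intro κ hκ
    rw [mem_PF] at hκ
    simp only [Function.update_self, Function.update_of_ne hfv]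
    exact third_flip (hκ v hfv)
  · intro κ hκ _
    rw [mem_PF] at hκ ⊢
    intro u hu
    by_cases huv : u = v
    · subst huv
      simp only [Function.update_self, Function.update_of_ne hfv]
      intro h
      have : (0 : ZMod 3) = 1 := by
        have := congrArg (fun z => z - sw (κ (f u))) h
        simp at this
      exact absurd this (by decide)
    · simp only [Function.update_of_ne (hv u), Function.update_of_ne huv]
      intro h
      exact hκ u hu (sw_inj.1 h)
  · intro κ _ _
    simp only [Function.update_self, Function.update_of_ne hfv]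
  · intro κ _ hpr
    funext u
    by_cases huv : u = v
    · subst huv
      simp only [Function.update_self, Function.update_of_ne hfv, sw_sw]
      exact hpr.symm
    · simp only [Function.update_of_ne huv, sw_sw]
  · intro κ hκ _ h
    rw [mem_PF] at hκ
    apply hκ w hw
    have h1 := congrFun h w
    have h2 := congrFun h (f w)
    simp only [Function.update_of_ne hwv, Function.update_of_ne (hv w)] at h1 h2
    rw [sw_fix h1, sw_fix h2]

theorem four_dvd_PF_of_involution (f : I → I) (hff : ∀ u, f (f u) = u) (p w : I)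
    (hp : f p ≠ p) (hw : f w ≠ w) (hwp : w ≠ p) (hwfp : w ≠ f p) : 4 ∣ (PF f).card := by
  have hX : ∀ u, (f u = p ∨ f u = f p) ↔ (u = p ∨ u = f p) := by
    intro u
    constructor
    · rintro (h | h)
      · right; rw [← h, hff]
      · left; rw [← hff u, h, hff]
    · rintro (h | h)
      · right; rw [h]
      · left; rw [h, hff]
  refine four_dvd_card (PF f) (fun κ => κ (f p) = κ p + 1)
    (fun κ u => if u = p ∨ u = f p then sw (κ u) else κ u)
    (fun κ u => if u = p ∨ u = f p then κ u else sw (κ u)) ?_ ?_ ?_ ?_ ?_ ?_ ?_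
  · intro κ hκ
    rw [mem_PF] at hκ ⊢
    intro u hu
    by_cases hux : u = p ∨ u = f p
    · simp only [hX, if_pos hux]
      intro h
      exact hκ u hu (sw_inj.1 h)
    · simp only [hX, if_neg hux]
      exact hκ u hu
  · intro κ _
    funext u
    by_cases hux : u = p ∨ u = f p
    · simp only [if_pos hux, sw_sw]
    · simp only [if_neg hux]
  · intro κ hκ
    rw [mem_PF] at hκ
    simp only [or_true, true_or, if_true]
    exact sw_flip (hκ p hp)
  · intro κ hκ _
    rw [mem_PF] at hκ ⊢
    intro u hu
    by_cases hux : u = p ∨ u = f p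
    · simp only [hX, if_pos hux]
      exact hκ u hu
    · simp only [hX, if_neg hux]
      intro h
      exact hκ u hu (sw_inj.1 h)
  · intro κ _ h
    simp only [or_true, true_or, if_true]
    exact h
  · intro κ _ _
    funext u
    by_cases hux : u = p ∨ u = f p
    · simp only [if_pos hux]
    · simp only [if_neg hux, sw_sw]
  · intro κ hκ _ h
    rw [mem_PF] at hκ
    apply hκ w hw
    have hwx : ¬ (w = p ∨ w = f p) := by tauto
    have hfwx : ¬ (f w = p ∨ f w = f p) := by rw [hX]; exact hwx
    have h1 := congrFun h w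
    have h2 := congrFun h (f w)
    simp only [if_neg hwx, if_neg hfwx] at h1 h2
    rw [sw_fix h1, sw_fix h2]

theorem card_class (p q : I) (hpq : p ≠ q) (t : ZMod 3) :
    (univ.filter (fun κ : I → ZMod 3 => κ q = κ p + t)).card
      = (univ.filter (fun κ : I → ZMod 3 => κ q = κ p)).card := by
  refine Finset.card_bij (fun κ _ => Function.update κ q (κ q - t)) ?_ ?_ ?_
  · intro κ hκ
    simp only [mem_filter, mem_univ, true_and] at hκ ⊢
    rw [Function.update_self, Function.update_of_ne hpq, hκ]; ring
  · intro κ _ κ' _ h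
    funext u
    by_cases hu : u = q
    · subst hu
      have := congrFun h u
      simpa using this
    · have := congrFun h u
      simpa [Function.update_of_ne hu] using this
  · intro κ hκ
    simp only [mem_filter, mem_univ, true_and] at hκ
    refine ⟨Function.update κ q (κ q + t), ?_, ?_⟩
    · simp only [mem_filter, mem_univ, true_and]
      rw [Function.update_self, Function.update_of_ne hpq, hκ]
    · funext u
      by_cases hu : u = q
      · subst hu; simp
      · simp [Function.update_of_ne hu]

theorem PF_swap (p q : I) (hpq : p ≠ q) : ((PF (Equiv.swap p q : I → I)).card : ZMod 4) = 2 := by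
  set c := (univ.filter (fun κ : I → ZMod 3 => κ q = κ p)).card with hc
  have h0 : (univ.filter (fun κ : I → ZMod 3 => κ q ≠ κ p)).card = 2 * c := by
    have h1 : (univ.filter (fun κ : I → ZMod 3 => κ q ≠ κ p))
        = (univ.filter (fun κ : I → ZMod 3 => κ q = κ p + 1)) ∪
          (univ.filter (fun κ : I → ZMod 3 => κ q = κ p + 2)) := by
      ext κ
      simp only [mem_filter, mem_univ, true_and, mem_union]
      generalize κ q = x
      generalize κ p = y
      revert x y
      decide
    have h2 : Disjoint (univ.filter (fun κ : I → ZMod 3 => κ q = κ p + 1))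
          (univ.filter (fun κ : I → ZMod 3 => κ q = κ p + 2)) := by
      rw [Finset.disjoint_filter]
      intro κ _
      generalize κ q = x
      generalize κ p = y
      revert x y
      decide
    rw [h1, Finset.card_union_of_disjoint h2, card_class p q hpq, card_class p q hpq]
    omega
  have h3 : c + 2 * c = 3 ^ Fintype.card I := by
    rw [← h0, hc, Finset.card_filter_add_card_filter_not (s := univ)
      (fun κ : I → ZMod 3 => κ q = κ p)]
    simp [ZMod.card]
  have h4 : Odd c := by
    have h5 : Odd (c + 2 * c) := by rw [h3]; exact Odd.pow (by decide)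
    rcases Nat.even_or_odd c with h | h
    · exfalso
      have : Even (c + 2 * c) := h.add (even_two_mul c)
      exact (Nat.not_even_iff_odd.2 h5) this
    · exact h
  have h6 : PF (Equiv.swap p q : I → I) = univ.filter (fun κ : I → ZMod 3 => κ q ≠ κ p) := by
    ext κ
    simp only [mem_PF, mem_filter, mem_univ, true_and]
    constructor
    · intro h
      have := h p (by rw [Equiv.swap_apply_left]; exact hpq.symm)
      rwa [Equiv.swap_apply_left] at this
    · intro h v hv
      by_cases hvp : v = p
      · subst hvp; rwa [Equiv.swap_apply_left]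
      · by_cases hvq : v = q
        · subst hvq; rw [Equiv.swap_apply_right]; exact fun h' => h h'.symm
        · exact absurd (Equiv.swap_apply_of_ne_of_ne hvp hvq) hv
  rw [h6, h0]
  obtain ⟨k, hk⟩ := h4
  rw [hk]
  have : 2 * (2 * k + 1) = 4 * k + 2 := by ring
  rw [this]
  push_cast
  have h4 : (4 : ZMod 4) = 0 := by decide
  rw [h4]; ring


theorem inv_app {J : Type*} (σ : Equiv.Perm J) (v : J) : σ⁻¹ (σ v) = v := σ.symm_apply_apply v

theorem app_inv {J : Type*} (σ : Equiv.Perm J) (v : J) : σ (σ⁻¹ v) = v := σ.apply_symm_apply v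

/-- Weight of choosing `u` at `v`. -/
def wt (c : I → ZMod 4) (a : I → I → Prop) [DecidableRel a] (v u : I) : ZMod 4 :=
  if u = v then c v else if a v u then 1 else 0

omit [Fintype I] in
theorem wt_ne {c : I → ZMod 4} {a : I → I → Prop} [DecidableRel a] {v u : I} (h : u ≠ v) :
    wt c a v u = if a v u then 1 else 0 := by simp [wt, h]

/-- The basic expansion. -/
theorem expansion (c : I → ZMod 4) (a : I → I → Prop) [DecidableRel a] :
    ∑ κ : I → ZMod 3, ∏ v, (c v + ∑ u, if a v u ∧ κ u ≠ κ v then (1 : ZMod 4) else 0)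
      = ∑ f : I → I, (∏ v, wt c a v (f v)) * ((PF f).card : ZMod 4) := by
  have h1 : ∀ κ : I → ZMod 3, ∀ v : I,
      (c v + ∑ u, if a v u ∧ κ u ≠ κ v then (1 : ZMod 4) else 0)
        = ∑ u, wt c a v u * (if u ≠ v → κ u ≠ κ v then 1 else 0) := by
    intro κ v
    rw [← Finset.add_sum_erase univ (fun u => wt c a v u * (if u ≠ v → κ u ≠ κ v then 1 else 0))
      (mem_univ v)]
    rw [← Finset.add_sum_erase univ (fun u => if a v u ∧ κ u ≠ κ v then (1 : ZMod 4) else 0)
      (mem_univ v)]
    simp only [ne_eq, not_true_eq_false, and_false, if_false, zero_add, false_implies, if_true,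
      mul_one]
    congr 1
    · simp [wt]
    · apply Finset.sum_congr rfl
      intro u hu
      rw [Finset.mem_erase] at hu
      rw [wt_ne hu.1]
      by_cases h1 : a v u <;> by_cases h2 : κ u = κ v <;> simp [h1, h2, hu.1]
  have h2 : ∀ κ : I → ZMod 3,
      ∏ v, (c v + ∑ u, if a v u ∧ κ u ≠ κ v then (1 : ZMod 4) else 0)
        = ∑ f : I → I, (∏ v, wt c a v (f v)) * (if κ ∈ PF f then 1 else 0) := by
    intro κ
    rw [Finset.prod_congr rfl (fun v _ => h1 κ v)]
    rw [Finset.prod_univ_sum]
    rw [Fintype.piFinset_univ]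
    apply Finset.sum_congr rfl
    intro f _
    rw [Finset.prod_mul_distrib]
    congr 1
    rw [Finset.prod_boole]
    congr 1
    rw [mem_PF]
    simp
  rw [Finset.sum_congr rfl (fun κ _ => h2 κ)]
  rw [Finset.sum_comm]
  apply Finset.sum_congr rfl
  intro f _
  rw [← Finset.mul_sum]
  congr 1
  rw [Finset.sum_ite_mem, Finset.univ_inter, Finset.sum_const, nsmul_eq_mul, mul_one]

theorem four_dvd_cast {n : ℕ} (h : 4 ∣ n) : (n : ZMod 4) = 0 := by
  exact (ZMod.natCast_eq_zero_iff n 4).2 h

theorem even_add_self_cast {n : ℕ} (h : Even n) (w : ZMod 4) :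
    w * (n : ZMod 4) + w * (n : ZMod 4) = 0 := by
  obtain ⟨k, rfl⟩ := h
  have h4 : (4 : ZMod 4) = 0 := by decide
  push_cast
  have : w * ((k : ZMod 4) + k) + w * ((k : ZMod 4) + k) = 4 * (w * k) := by ring
  rw [this, h4, zero_mul]

/-- The main evaluation modulo 4. -/
theorem sum_eq_two (a : I → I → Prop) [DecidableRel a] (hsymm : ∀ u v, a u v ↔ a v u)
    (p q : I) (hpq : p ≠ q) (hapq : a p q) :
    ∑ κ : I → ZMod 3, ∏ v, ((if v = p ∨ v = q then (0 : ZMod 4) else 1)
      + ∑ u, if a v u ∧ κ u ≠ κ v then (1 : ZMod 4) else 0) = 2 := by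
  set c : I → ZMod 4 := fun v => if v = p ∨ v = q then 0 else 1 with hc
  have hexp := expansion c a
  rw [hexp]
  have hW : ∀ f : I → I, (∏ v, wt c a v (f v)) ≠ 0 → f p ≠ p ∧ f q ≠ q := by
    intro f hf
    constructor
    · intro h
      apply hf
      apply Finset.prod_eq_zero (mem_univ p)
      simp [wt, h, hc]
    · intro h
      apply hf
      apply Finset.prod_eq_zero (mem_univ q)
      simp [wt, h, hc]
  rw [← Finset.sum_filter_add_sum_filter_not univ (fun f : I → I => Function.Bijective f)]
  have hnb : ∑ f ∈ univ.filter (fun f : I → I => ¬ Function.Bijective f),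
      (∏ v, wt c a v (f v)) * ((PF f).card : ZMod 4) = 0 := by
    apply Finset.sum_eq_zero
    intro f hf
    rw [mem_filter] at hf
    by_cases hz : (∏ v, wt c a v (f v)) = 0
    · rw [hz, zero_mul]
    · obtain ⟨hp, hq⟩ := hW f hz
      have hns : ¬ Function.Surjective f := by
        intro hs
        exact hf.2 ⟨Finite.injective_iff_surjective.2 hs, hs⟩
      rw [Function.Surjective] at hns
      push Not at hns
      obtain ⟨v, hv⟩ := hns
      have : 4 ∣ (PF f).card := by
        by_cases hvp : v = p
        · exact four_dvd_PF_of_not_range f v q hv (by rw [hvp]; exact hpq.symm) hq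
        · exact four_dvd_PF_of_not_range f v p hv (fun h => hvp h.symm) hp
      rw [four_dvd_cast this, mul_zero]
  rw [hnb, add_zero]
  have hperm : ∑ f ∈ univ.filter (fun f : I → I => Function.Bijective f),
      (∏ v, wt c a v (f v)) * ((PF f).card : ZMod 4)
      = ∑ σ : Equiv.Perm I, (∏ v, wt c a v (σ v)) * ((PF (σ : I → I)).card : ZMod 4) := by
    symm
    refine Finset.sum_bij (fun σ _ => (σ : I → I)) ?_ ?_ ?_ ?_
    · intro σ _
      simp
    · intro σ _ τ _ h
      exact Equiv.coe_fn_injective h
    · intro f hf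
      rw [mem_filter] at hf
      exact ⟨Equiv.ofBijective f hf.2, mem_univ _, rfl⟩
    · intro σ _
      rfl
  rw [hperm]
  rw [← Finset.sum_filter_add_sum_filter_not univ (fun σ : Equiv.Perm I => σ⁻¹ = σ)]
  have hni : ∑ σ ∈ univ.filter (fun σ : Equiv.Perm I => ¬ σ⁻¹ = σ),
      (∏ v, wt c a v (σ v)) * ((PF (σ : I → I)).card : ZMod 4) = 0 := by
    have hWinv : ∀ σ : Equiv.Perm I, (∏ v, wt c a v (σ⁻¹ v)) = ∏ v, wt c a v (σ v) := by
      intro σ
      rw [← Equiv.prod_comp σ (fun v => wt c a v (σ⁻¹ v))]
      apply Finset.prod_congr rfl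
      intro v _
      rw [inv_app]
      by_cases h : v = σ v
      · rw [← h]
      · rw [wt_ne h, wt_ne (fun h' => h h'.symm)]
        simp only [hsymm (σ v) v]
    have hPinv : ∀ σ : Equiv.Perm I, PF ((σ⁻¹ : Equiv.Perm I) : I → I) = PF (σ : I → I) := by
      intro σ
      ext κ
      rw [mem_PF, mem_PF]
      constructor
      · intro h v hv
        have := h (σ v) (by rw [inv_app]; exact fun h' => hv h'.symm)
        rw [inv_app] at this
        exact fun h' => this h'.symm
      · intro h v hv
        have h1 : σ (σ⁻¹ v) = v := app_inv σ v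
        have := h (σ⁻¹ v) (by rw [h1]; exact fun h' => hv h'.symm)
        rw [h1] at this
        exact fun h' => this h'.symm
    refine Finset.sum_involution (fun σ _ => σ⁻¹) ?_ ?_ ?_ ?_
    · intro σ _
      rw [hWinv, hPinv]
      by_cases hz : (∏ v, wt c a v (σ v)) = 0
      · rw [hz]; simp
      · exact even_add_self_cast (even_PF _ p (hW _ hz).1) _
    · intro σ hσ _
      rw [mem_filter] at hσ
      exact hσ.2
    · intro σ hσ
      rw [mem_filter] at hσ ⊢
      refine ⟨mem_univ _, fun h => hσ.2 ?_⟩
      rw [inv_inv] at h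
      exact h.symm
    · intro σ _
      exact inv_inv σ
  rw [hni, add_zero]
  rw [Finset.sum_eq_single (Equiv.swap p q)]
  · have hone : (∏ v, wt c a v (Equiv.swap p q v)) = 1 := by
      apply Finset.prod_eq_one
      intro v _
      by_cases hvp : v = p
      · subst hvp
        rw [Equiv.swap_apply_left, wt_ne hpq.symm, if_pos hapq]
      · by_cases hvq : v = q
        · subst hvq
          rw [Equiv.swap_apply_right, wt_ne hpq, if_pos ((hsymm _ _).1 hapq)]
        · rw [Equiv.swap_apply_of_ne_of_ne hvp hvq]
          simp [wt, hc, hvp, hvq]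
    rw [hone, PF_swap p q hpq, one_mul]
  · intro σ hσ hne
    rw [mem_filter] at hσ
    have hinv : ∀ u, σ (σ u) = u := by
      intro u
      have : σ⁻¹ (σ u) = u := inv_app σ u
      rw [hσ.2] at this
      exact this
    by_cases hz : (∏ v, wt c a v (σ v)) = 0
    · rw [hz, zero_mul]
    · obtain ⟨hp, hq⟩ := hW _ hz
      have : 4 ∣ (PF (σ : I → I)).card := by
        by_cases hpq' : σ p = q
        · -- another moved point
          have hex : ∃ w, w ≠ p ∧ w ≠ q ∧ σ w ≠ w := by
            by_contra hcon
            push Not at hcon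
            apply hne
            ext u
            by_cases hup : u = p
            · subst hup; rw [Equiv.swap_apply_left, hpq']
            · by_cases huq : u = q
              · subst huq
                rw [Equiv.swap_apply_right]
                rw [← hpq', hinv]
              · rw [Equiv.swap_apply_of_ne_of_ne hup huq, hcon u hup huq]
          obtain ⟨w, hw1, hw2, hw3⟩ := hex
          exact four_dvd_PF_of_involution σ hinv p w hp hw3 hw1 (by rw [hpq']; exact hw2)
        · exact four_dvd_PF_of_involution σ hinv p q hp hq hpq.symm (fun h => hpq' h.symm)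
      rw [four_dvd_cast this, mul_zero]
  · intro h
    exfalso
    apply h
    rw [mem_filter]
    exact ⟨mem_univ _, Equiv.swap_inv p q⟩

/-- Number of `a`-neighbours of `v` outside its class. -/
def sepdeg (a : I → I → Prop) [DecidableRel a] (κ : I → ZMod 3) (v : I) : ℕ :=
  (univ.filter (fun u => a v u ∧ κ u ≠ κ v)).card

/-- Existence of a good three-class partition. -/
theorem exists_partition (a : I → I → Prop) [DecidableRel a] (hsymm : ∀ u v, a u v ↔ a v u)
    (p q : I) (hpq : p ≠ q) (hapq : a p q) :
    ∃ κ : I → ZMod 3, ∀ v, (Odd (sepdeg a κ v) ↔ (v = p ∨ v = q)) := by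
  by_contra hcon
  push Not at hcon
  have hsum := sum_eq_two a hsymm p q hpq hapq
  have hterm : ∀ κ : I → ZMod 3,
      ∏ v, ((if v = p ∨ v = q then (0 : ZMod 4) else 1)
      + ∑ u, if a v u ∧ κ u ≠ κ v then (1 : ZMod 4) else 0)
      = ((∏ v, ((if v = p ∨ v = q then 0 else 1) + sepdeg a κ v) : ℕ) : ZMod 4) := by
    intro κ
    push_cast
    apply Finset.prod_congr rfl
    intro v _
    congr 1
    rw [sepdeg, Finset.card_filter]
    push_cast
    rfl
  have hzero : ∑ κ : I → ZMod 3, ∏ v, ((if v = p ∨ v = q then (0 : ZMod 4) else 1)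
      + ∑ u, if a v u ∧ κ u ≠ κ v then (1 : ZMod 4) else 0) = 0 := by
    refine Finset.sum_involution (fun κ _ v => sw (κ v)) ?_ ?_ ?_ ?_
    · intro κ _
      have hsame : ∏ v, ((if v = p ∨ v = q then (0 : ZMod 4) else 1)
          + ∑ u, if a v u ∧ sw (κ u) ≠ sw (κ v) then (1 : ZMod 4) else 0)
          = ∏ v, ((if v = p ∨ v = q then (0 : ZMod 4) else 1)
          + ∑ u, if a v u ∧ κ u ≠ κ v then (1 : ZMod 4) else 0) := by
        simp only [ne_eq, sw_inj]
      rw [hsame, hterm]
      have heven : Even (∏ v, ((if v = p ∨ v = q then 0 else 1) + sepdeg a κ v)) := by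
        rw [← Nat.not_odd_iff_even, Nat.odd_iff]
        intro hodd
        have hall : ∀ v, Odd ((if v = p ∨ v = q then 0 else 1) + sepdeg a κ v) := by
          intro v
          rw [← Nat.odd_iff] at hodd
          exact hodd.of_dvd_nat (Finset.dvd_prod_of_mem _ (mem_univ v))
        obtain ⟨v, hv⟩ := hcon κ
        have := hall v
        by_cases hvpq : v = p ∨ v = q
        · rw [if_pos hvpq, zero_add] at this
          rcases hv with ⟨_, h2⟩ | ⟨h1, _⟩
          · exact h2.1 (hvpq.resolve_right h2.2)
          · exact h1 this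
        · rw [if_neg hvpq] at this
          rcases hv with ⟨h1, _⟩ | ⟨_, h2⟩
          · rw [Nat.odd_add] at this
            have h3 := this.1 (by decide)
            exact (Nat.not_even_iff_odd.2 h1) h3
          · exact hvpq h2
      have := even_add_self_cast heven 1
      simpa using this
    · intro κ _ hne heq
      apply hne
      apply Finset.prod_eq_zero (mem_univ p)
      simp only [true_or, if_true, zero_add]
      apply Finset.sum_eq_zero
      intro u _
      have h1 := sw_fix (congrFun heq u)
      have h2 := sw_fix (congrFun heq p)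
      simp [h1, h2]
    · intro κ _
      exact mem_univ _
    · intro κ _
      funext v
      exact sw_sw _
  rw [hzero] at hsum
  exact absurd hsum (by decide)

end Pool.Agent.H416R2.BF
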