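import Mathlib
import Pool.Agent.H416R2.BFGamma

set_option autoImplicit false

/-!
# Chord theorem

`X` = vertices of a 2-regular graph `D` with edge classes given by two fixed-point-free
involutions `m1`, `m2`; `τ` pairs up the ends of the chords.
-/

namespace Pool.Agent.H416R2.BF

open Finset

/-- The four colours. -/
abbrev F4 := ZMod 2 × ZMod 2

/-- The symplectic form. -/
def B (x y : F4) : ZMod 2 := x.1 * y.2 + x.2 * y.1

def c3 : ZMod 3 → F4
  | 0 => (1, 0)
  | 1 => (0, 1)
  | 2 => (1, 1)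

theorem c3_ne (i : ZMod 3) : c3 i ≠ 0 := by revert i; decide
theorem B_c3 (i j : ZMod 3) : B (c3 i) (c3 j) = if i ≠ j then 1 else 0 := by
  revert i j; decide

theorem B_add_left (x y z : F4) : B (x + y) z = B x z + B y z := by
  revert x y z; decide
theorem B_smul_left (a : ZMod 2) (x z : F4) : B (a • x) z = a * B x z := by
  revert a x z; decide
theorem B_zero_left (z : F4) : B 0 z = 0 := by revert z; decide

theorem B_sum_left {ι : Type*} (s : Finset ι) (f : ι → F4) (z : F4) :
    B (∑ i ∈ s, f i) z = ∑ i ∈ s, B (f i) z := by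
  classical
  induction s using Finset.induction_on with
  | empty => simp [B_zero_left]
  | insert a s ha ih => rw [Finset.sum_insert ha, Finset.sum_insert ha, B_add_left, ih]

theorem add_self2 (a : ZMod 2) : a + a = 0 := by revert a; decide

theorem sum_inv_zero {X : Type*} [Fintype X] [DecidableEq X] (m : X → X)
    (hm : ∀ x, m (m x) = x) (hm' : ∀ x, m x ≠ x) (f : X → ZMod 2) (hf : ∀ x, f (m x) = f x) :
    ∑ x, f x = 0 := by
  refine Finset.sum_involution (fun x _ => m x) ?_ ?_ ?_ ?_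
  · intro x _; rw [hf]; exact add_self2 _
  · intro x _ _; exact hm' x
  · intro x _; exact mem_univ _
  · intro x _; exact hm x

section

variable {X : Type*} [DecidableEq X]

/-- indicator of a point -/
def dl (x z : X) : ZMod 2 := if z = x then 1 else 0

/-- `x` and `y` lie on the same circuit (algebraic form). -/
def Conn (m1 m2 : X → X) (x y : X) : Prop :=
  ∃ ψ1 ψ2 : X → ZMod 2, (∀ z, ψ1 (m1 z) = ψ1 z) ∧ (∀ z, ψ2 (m2 z) = ψ2 z) ∧
    ∀ z, ψ1 z + ψ2 z = dl x z + dl y z

theorem Conn.refl (m1 m2 : X → X) (x : X) : Conn m1 m2 x x :=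
  ⟨fun _ => 0, fun _ => 0, fun _ => rfl, fun _ => rfl, fun z => by
    rw [add_self2, add_self2]⟩

theorem Conn.symm {m1 m2 : X → X} {x y : X} (h : Conn m1 m2 x y) : Conn m1 m2 y x := by
  obtain ⟨ψ1, ψ2, h1, h2, h3⟩ := h
  exact ⟨ψ1, ψ2, h1, h2, fun z => by rw [h3, add_comm]⟩

theorem Conn.trans {m1 m2 : X → X} {x y w : X} (h : Conn m1 m2 x y) (h' : Conn m1 m2 y w) :
    Conn m1 m2 x w := by
  obtain ⟨ψ1, ψ2, h1, h2, h3⟩ := h
  obtain ⟨χ1, χ2, k1, k2, k3⟩ := h'
  refine ⟨fun z => ψ1 z + χ1 z, fun z => ψ2 z + χ2 z, fun z => by simp only [h1, k1],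
    fun z => by simp only [h2, k2], fun z => ?_⟩
  have : ψ1 z + χ1 z + (ψ2 z + χ2 z) = (ψ1 z + ψ2 z) + (χ1 z + χ2 z) := by ring
  rw [this, h3, k3]
  have := add_self2 (dl y z)
  linear_combination this

theorem Conn.m1 {m1 m2 : X → X} (h1 : ∀ x, m1 (m1 x) = x) (_h : ∀ x, m1 x ≠ x) (x : X) :
    Conn m1 m2 x (m1 x) := by
  refine ⟨fun z => dl x z + dl (m1 x) z, fun _ => 0, ?_, fun _ => rfl, fun z => by rw [add_zero]⟩
  intro z
  have e1 : dl x (m1 z) = dl (m1 x) z := by
    unfold dl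
    by_cases h : z = m1 x
    · rw [if_pos h, if_pos]; rw [h, h1]
    · rw [if_neg h, if_neg]; intro h'; apply h; rw [← h', h1]
  have e2 : dl (m1 x) (m1 z) = dl x z := by
    unfold dl
    by_cases h : z = x
    · rw [if_pos h, if_pos]; rw [h]
    · rw [if_neg h, if_neg]; intro h'; apply h; rw [← h1 z, h', h1]
  simp only [e1, e2]
  rw [add_comm]

theorem Conn.swap {m1 m2 : X → X} {x y : X} (h : Conn m1 m2 x y) : Conn m2 m1 x y := by
  obtain ⟨ψ1, ψ2, h1, h2, h3⟩ := h
  exact ⟨ψ2, ψ1, h2, h1, fun z => by rw [add_comm, h3]⟩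

theorem Conn.m2 {m1 m2 : X → X} (h2 : ∀ x, m2 (m2 x) = x) (h2' : ∀ x, m2 x ≠ x) (x : X) :
    Conn m1 m2 x (m2 x) := (Conn.m1 (m1 := m2) (m2 := m1) h2 h2' x).swap

/-- The desired colouring. -/
def GoodCol (m1 m2 τ : X → X) (sp : X → Prop) : Prop :=
  ∃ φ1 φ2 : X → F4, (∀ x, φ1 (m1 x) = φ1 x) ∧ (∀ x, φ2 (m2 x) = φ2 x) ∧
    (∀ x, φ1 x + φ2 x ≠ 0) ∧ (∀ x, φ1 (τ x) + φ2 (τ x) = φ1 x + φ2 x) ∧
    (∀ x, (B (φ1 x + φ1 (τ x)) (φ1 x + φ2 x) = 1 ↔ sp x))

/-- Chord theorem, connected case. -/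
theorem chord_single [Fintype X] (m1 m2 τ : X → X)
    (h1 : ∀ x, m1 (m1 x) = x) (h1' : ∀ x, m1 x ≠ x)
    (h2 : ∀ x, m2 (m2 x) = x) (h2' : ∀ x, m2 x ≠ x)
    (ht : ∀ x, τ (τ x) = x) (ht' : ∀ x, τ x ≠ x)
    (hconn : ∀ x, Conn m1 m2 x (τ x))
    (x1 x2 : X) (hne : x2 ≠ x1) (hne' : x2 ≠ τ x1)
    (hψ : ∃ ψ1 ψ2 : X → ZMod 2, (∀ z, ψ1 (m1 z) = ψ1 z) ∧ (∀ z, ψ2 (m2 z) = ψ2 z) ∧
      (∀ z, ψ1 z + ψ2 z = dl x2 z + dl (τ x2) z) ∧ ψ1 x1 + ψ1 (τ x1) = 1) :
    GoodCol m1 m2 τ (fun x => x = x1 ∨ x = τ x1 ∨ x = x2 ∨ x = τ x2) := by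
  classical
  let s : Setoid X := ⟨fun x y => y = x ∨ y = τ x, by
    constructor
    · intro x; exact Or.inl rfl
    · rintro x y (h | h)
      · exact Or.inl h.symm
      · right; rw [h, ht]
    · rintro x y z (h | h) (h' | h')
      · left; rw [h', h]
      · right; rw [h', h]
      · right; rw [h', h]
      · left; rw [h', h, ht]⟩
  have hs : ∀ x y : X, (Quotient.mk s x = Quotient.mk s y ↔ (y = x ∨ y = τ x)) := by
    intro x y
    rw [Quotient.eq]
    exact Iff.rfl
  have hout : ∀ x : X, (Quotient.mk s x).out = x ∨ (Quotient.mk s x).out = τ x := by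
    intro x
    have : Quotient.mk s ((Quotient.mk s x).out) = Quotient.mk s x := Quotient.out_eq _
    rcases (hs _ _).1 this with h | h
    · left; exact h.symm
    · right
      have h' := congrArg τ h
      rw [ht] at h'
      exact h'.symm
  -- sum over the two ends of a chord does not depend on the representative
  have hends : ∀ (g : X → ZMod 2) (x : X),
      g (Quotient.mk s x).out + g (τ (Quotient.mk s x).out) = g x + g (τ x) := by
    intro g x
    rcases hout x with h | h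
    · rw [h]
    · rw [h, ht, add_comm]
  -- choose the arcs
  have harc : ∀ L : Quotient s, ∃ ψ1 ψ2 : X → ZMod 2, (∀ z, ψ1 (m1 z) = ψ1 z) ∧
      (∀ z, ψ2 (m2 z) = ψ2 z) ∧ (∀ z, ψ1 z + ψ2 z = dl L.out z + dl (τ L.out) z) ∧
      (L = Quotient.mk s x2 → ψ1 x1 + ψ1 (τ x1) = 1) := by
    intro L
    by_cases hL : L = Quotient.mk s x2
    · obtain ⟨ψ1, ψ2, k1, k2, k3, k4⟩ := hψ
      refine ⟨ψ1, ψ2, k1, k2, ?_, fun _ => k4⟩
      intro z
      rw [k3]
      have e := hends (fun x => dl x z) x2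
      rw [hL]
      exact e.symm
    · obtain ⟨ψ1, ψ2, k1, k2, k3⟩ := hconn L.out
      exact ⟨ψ1, ψ2, k1, k2, k3, fun h => absurd h hL⟩
  choose ψ1 ψ2 k1 k2 k3 k4 using harc
  have hmk : ∀ L : Quotient s, Quotient.mk s L.out = L := fun L => Quotient.out_eq L
  -- the coboundary in terms of classes
  have hd : ∀ (L : Quotient s) (z : X), ψ1 L z + ψ2 L z = if Quotient.mk s z = L then 1 else 0 := by
    intro L z
    rw [k3]
    by_cases h : Quotient.mk s z = L
    · rw [if_pos h]
      subst h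
      rcases hout z with h | h
      · rw [h]; simp [dl, (ht' z).symm]
      · rw [h, ht]; simp [dl, (ht' z).symm]
    · rw [if_neg h]
      have e1 : z ≠ L.out := by
        rintro rfl; exact h (hmk L)
      have e2 : z ≠ τ L.out := by
        rintro rfl
        apply h
        rw [← hmk L, hs]
        right; rw [hmk, ht]
      simp [dl, e1, e2]
  let A : Quotient s → Quotient s → ZMod 2 := fun K L => ψ1 L K.out + ψ1 L (τ K.out)
  -- discrete integration by parts
  have hA : ∀ K L, A K L = ∑ z, ψ1 L z * ψ2 K z := by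
    intro K L
    have e1 : ∑ z, ψ1 L z * (ψ1 K z + ψ2 K z) = A K L := by
      have : ∀ z, ψ1 L z * (ψ1 K z + ψ2 K z)
          = (if z = K.out then ψ1 L z else 0) + (if z = τ K.out then ψ1 L z else 0) := by
        intro z
        rw [k3]
        unfold dl
        by_cases h : z = K.out <;> by_cases h' : z = τ K.out <;> simp [h, h', mul_add]
      rw [Finset.sum_congr rfl (fun z _ => this z), Finset.sum_add_distrib]
      simp [A]
    have e2 : ∑ z, ψ1 L z * ψ1 K z = 0 :=
      sum_inv_zero m1 h1 h1' _ (fun z => by rw [k1, k1])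
    rw [← e1]
    have : ∀ z, ψ1 L z * (ψ1 K z + ψ2 K z) = ψ1 L z * ψ1 K z + ψ1 L z * ψ2 K z := by
      intro z; ring
    rw [Finset.sum_congr rfl (fun z _ => this z), Finset.sum_add_distrib, e2, zero_add]
  have hAsymm : ∀ K L, A K L = A L K := by
    intro K L
    by_cases hKL : K = L
    · rw [hKL]
    · have e1 : ∑ z, (ψ1 L z + ψ2 L z) * (ψ1 K z + ψ2 K z) = 0 := by
        apply Finset.sum_eq_zero
        intro z _
        rw [hd, hd]
        by_cases h : Quotient.mk s z = L
        · have h' : Quotient.mk s z ≠ K := by rw [h]; exact fun e => hKL e.symm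
          simp [h']
        · simp [h]
      have e2 : ∑ z, ψ1 L z * ψ1 K z = 0 :=
        sum_inv_zero m1 h1 h1' _ (fun z => by rw [k1, k1])
      have e3 : ∑ z, ψ2 L z * ψ2 K z = 0 :=
        sum_inv_zero m2 h2 h2' _ (fun z => by rw [k2, k2])
      have e4 : ∑ z, (ψ1 L z + ψ2 L z) * (ψ1 K z + ψ2 K z)
          = ∑ z, ψ1 L z * ψ1 K z + ∑ z, ψ2 L z * ψ2 K z
            + (∑ z, ψ1 L z * ψ2 K z + ∑ z, ψ1 K z * ψ2 L z) := by
        rw [← Finset.sum_add_distrib, ← Finset.sum_add_distrib, ← Finset.sum_add_distrib]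
        apply Finset.sum_congr rfl
        intro z _; ring
      rw [e1, e2, e3, zero_add, zero_add, ← hA, ← hA] at e4
      have e5 := add_self2 (A K L)
      have : A K L + A L K = A K L + A K L := by rw [e5, ← e4]
      exact (add_left_cancel this).symm
  have hpq : (Quotient.mk s x1) ≠ (Quotient.mk s x2) := by
    rw [Ne, hs]
    push Not
    exact ⟨hne, hne'⟩
  have hapq : A (Quotient.mk s x1) (Quotient.mk s x2) = 1 := by
    show ψ1 _ _ + ψ1 _ _ = 1
    rw [hends]
    exact k4 _ rfl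
  obtain ⟨κ, hκ⟩ := exists_partition (fun K L => A K L = 1) (fun K L => by rw [hAsymm])
    (Quotient.mk s x1) (Quotient.mk s x2) hpq hapq
  refine ⟨fun z => ∑ L, ψ1 L z • c3 (κ L), fun z => ∑ L, ψ2 L z • c3 (κ L), ?_, ?_, ?_, ?_, ?_⟩
  · intro z; simp only [k1]
  · intro z; simp only [k2]
  all_goals
    have hsum : ∀ z, (∑ L, ψ1 L z • c3 (κ L)) + (∑ L, ψ2 L z • c3 (κ L))
        = c3 (κ (Quotient.mk s z)) := by
      intro z
      rw [← Finset.sum_add_distrib]
      have : ∀ L, ψ1 L z • c3 (κ L) + ψ2 L z • c3 (κ L)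
          = if Quotient.mk s z = L then c3 (κ L) else 0 := by
        intro L
        rw [← add_smul, hd]
        by_cases h : Quotient.mk s z = L <;> simp [h]
      rw [Finset.sum_congr rfl (fun L _ => this L)]
      simp
  · intro z
    rw [hsum]
    exact c3_ne _
  · intro z
    rw [hsum, hsum]
    congr 2
    rw [hs]
    right; rw [ht]
  · intro z
    rw [hsum]
    have e1 : (∑ L, ψ1 L z • c3 (κ L)) + (∑ L, ψ1 L (τ z) • c3 (κ L))
        = ∑ L, A (Quotient.mk s z) L • c3 (κ L) := by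
      rw [← Finset.sum_add_distrib]
      apply Finset.sum_congr rfl
      intro L _
      rw [← add_smul]
      congr 1
      exact (hends (ψ1 L) z).symm
    rw [e1, B_sum_left]
    have e2 : ∀ L, B (A (Quotient.mk s z) L • c3 (κ L)) (c3 (κ (Quotient.mk s z)))
        = if (A (Quotient.mk s z) L = 1 ∧ κ L ≠ κ (Quotient.mk s z)) then 1 else 0 := by
      intro L
      rw [B_smul_left, B_c3]
      generalize A (Quotient.mk s z) L = t
      have ht2 : t = 0 ∨ t = 1 := by revert t; decide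
      rcases ht2 with h | h <;> subst h <;> by_cases h' : κ L = κ (Quotient.mk s z) <;> simp [h']
    rw [Finset.sum_congr rfl (fun L _ => e2 L)]
    have e3 : (∑ L, if (A (Quotient.mk s z) L = 1 ∧ κ L ≠ κ (Quotient.mk s z)) then (1 : ZMod 2)
        else 0) = (sepdeg (fun K L => A K L = 1) κ (Quotient.mk s z) : ZMod 2) := by
      rw [sepdeg, Finset.card_filter]
      push_cast
      rfl
    rw [e3]
    have e4 : ((sepdeg (fun K L => A K L = 1) κ (Quotient.mk s z) : ZMod 2) = 1)
        ↔ Odd (sepdeg (fun K L => A K L = 1) κ (Quotient.mk s z)) := by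
      rw [ZMod.natCast_eq_one_iff_odd]
    rw [e4, hκ]
    rw [eq_comm, hs, eq_comm (b := Quotient.mk s x2), hs]
    tauto

theorem F4_case (p1 p2 q1 q2 : F4) (h0 : p1 + p2 ≠ 0) (h : q1 + q2 = p1 + p2)
    (hB : B (p1 + q1) (p1 + p2) = 1) :
    (p1 + q2 ≠ 0) ∧ (q1 + p2 = p1 + q2) ∧ B (p1 + q1) (p1 + q2) = 1 ∧ B (q1 + p1) (q1 + p2) = 1 := by
  revert p1 p2 q1 q2; decide

/-- Chord theorem, the case of two circuits joined by both special chords. -/
theorem chord_two [Fintype X] (m1 m2 τ : X → X)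
    (h1 : ∀ x, m1 (m1 x) = x) (h1' : ∀ x, m1 x ≠ x)
    (h2 : ∀ x, m2 (m2 x) = x) (h2' : ∀ x, m2 x ≠ x)
    (ht : ∀ x, τ (τ x) = x) (ht' : ∀ x, τ x ≠ x)
    (χ : X → ZMod 2) (hχ1 : ∀ x, χ (m1 x) = χ x) (hχ2 : ∀ x, χ (m2 x) = χ x)
    (hconn : ∀ x y, χ x = χ y → Conn m1 m2 x y)
    (x1 x2 : X) (hne : x2 ≠ x1) (hx1 : χ x1 = 1) (hy1 : χ (τ x1) = 0)
    (hx2 : χ x2 = 1) (hy2 : χ (τ x2) = 0) :
    GoodCol m1 m2 τ (fun x => x = x1 ∨ x = τ x1 ∨ x = x2 ∨ x = τ x2) := by
  classical
  set y1 := τ x1 with hy1d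
  let s : Equiv.Perm X := Equiv.swap x1 y1
  have hss : ∀ z, s (s z) = z := fun z => by simp [s]
  have hsx : s x1 = y1 := Equiv.swap_apply_left x1 y1
  have hsy : s y1 = x1 := Equiv.swap_apply_right x1 y1
  have hso : ∀ z, z ≠ x1 → z ≠ y1 → s z = z := fun z h h' => Equiv.swap_apply_of_ne_of_ne h h'
  have h01 : (0 : ZMod 2) ≠ 1 := by decide
  have hx1y1 : x1 ≠ y1 := (ht' x1).symm
  have hinv : ∀ η : X → ZMod 2, (∀ z, η (m2 z) = η z) → ∀ z, (η ∘ s) (s (m2 (s z))) = (η ∘ s) z := by
    intro η hη z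
    simp only [Function.comp, hss]
    exact hη _
  -- connectivity after re-pairing
  have key1 : ∀ z w, χ z = χ w → Conn m1 (fun z => s (m2 (s z))) z w := by
    intro z w hzw
    obtain ⟨η1, η2, e1, e2, e3⟩ := hconn z w hzw
    have h02 : χ w = 0 ∨ χ w = 1 := by generalize χ w = t; revert t; decide
    rcases h02 with hw | hw
    · have hz : χ z = 0 := by rw [hzw, hw]
      refine ⟨fun u => (1 + χ u) * (η1 u + η2 y1), fun u => (1 + χ u) * (η2 u + η2 y1),
        fun u => by simp only [hχ1, e1], ?_, ?_⟩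
      · have hsame : (fun u => (1 + χ u) * (η2 u + η2 y1)) ∘ s
            = (fun u => (1 + χ u) * (η2 u + η2 y1)) := by
          funext u
          simp only [Function.comp]
          by_cases hu1 : u = x1
          · subst hu1
            rw [hsx, hx1, hy1, add_self2, add_self2]; simp
          · by_cases hu2 : u = y1
            · rw [hu2, hsy, hx1, hy1, add_self2, add_self2]; simp
            · rw [hso u hu1 hu2]
        intro u
        have := hinv (fun u => (1 + χ u) * (η2 u + η2 y1)) (fun u => by simp only [hχ2, e2]) u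
        rw [hsame] at this
        exact this
      · intro u
        have : (1 + χ u) * (η1 u + η2 y1) + (1 + χ u) * (η2 u + η2 y1)
          = (1 + χ u) * (η1 u + η2 u) + (1 + χ u) * (η2 y1 + η2 y1) := by ring
        rw [this, add_self2, mul_zero, add_zero, e3]
        unfold dl
        by_cases hu1 : u = z
        · subst hu1; rw [hz]; simp
        · by_cases hu2 : u = w
          · subst hu2; rw [hw]; simp
          · simp [hu1, hu2]
    · have hz : χ z = 1 := by rw [hzw, hw]
      refine ⟨fun u => χ u * (η1 u + η2 x1), fun u => χ u * (η2 u + η2 x1),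
        fun u => by simp only [hχ1, e1], ?_, ?_⟩
      · have hsame : (fun u => χ u * (η2 u + η2 x1)) ∘ s
            = (fun u => χ u * (η2 u + η2 x1)) := by
          funext u
          simp only [Function.comp]
          by_cases hu1 : u = x1
          · subst hu1
            rw [hsx, hx1, hy1, add_self2]; simp
          · by_cases hu2 : u = y1
            · rw [hu2, hsy, hx1, hy1, add_self2]; simp
            · rw [hso u hu1 hu2]
        intro u
        have := hinv (fun u => χ u * (η2 u + η2 x1)) (fun u => by simp only [hχ2, e2]) u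
        rw [hsame] at this
        exact this
      · intro u
        have : χ u * (η1 u + η2 x1) + χ u * (η2 u + η2 x1)
          = χ u * (η1 u + η2 u) + χ u * (η2 x1 + η2 x1) := by ring
        rw [this, add_self2, mul_zero, add_zero, e3]
        unfold dl
        by_cases hu1 : u = z
        · subst hu1; rw [hz]; simp
        · by_cases hu2 : u = w
          · subst hu2; rw [hw]; simp
          · simp [hu1, hu2]
  have hd1 : ∀ z, χ z + (χ ∘ s) z = dl x1 z + dl y1 z := by
    intro z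
    simp only [Function.comp]
    unfold dl
    by_cases hz1 : z = x1
    · subst hz1; rw [hsx, hx1, hy1]; simp [hx1y1]
    · by_cases hz2 : z = y1
      · rw [hz2, hsy, hx1, hy1]; simp [hx1y1.symm]
      · rw [hso z hz1 hz2, add_self2]; simp [hz1, hz2]
  have key2 : Conn m1 (fun z => s (m2 (s z))) x1 y1 :=
    ⟨χ, χ ∘ s, hχ1, hinv χ hχ2, hd1⟩
  have key3 : ∀ z w, Conn m1 (fun z => s (m2 (s z))) z w := by
    intro z w
    have hz : χ z = 0 ∨ χ z = 1 := by generalize χ z = t; revert t; decide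
    have hw : χ w = 0 ∨ χ w = 1 := by generalize χ w = t; revert t; decide
    rcases hz with hz | hz <;> rcases hw with hw | hw
    · exact key1 z w (by rw [hz, hw])
    · exact ((key1 z y1 (by rw [hz, hy1])).trans key2.symm).trans (key1 x1 w (by rw [hx1, hw]))
    · exact ((key1 z x1 (by rw [hz, hx1])).trans key2).trans (key1 y1 w (by rw [hy1, hw]))
    · exact key1 z w (by rw [hz, hw])
  have hgood := chord_single m1 (fun z => s (m2 (s z))) τ h1 h1'
    (fun z => by simp only [hss, h2])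
    (fun z h => by
      have := congrArg s h
      rw [hss] at this
      exact h2' _ this)
    ht ht' (fun x => key3 _ _) x2 x1 hne.symm
    (by
      intro h
      rw [h, hy2] at hx1
      exact h01 hx1)
    ⟨χ, χ ∘ s, hχ1, hinv χ hχ2, hd1, by rw [hx2, hy2, add_zero]⟩
  obtain ⟨φ1, φ2, g1, g2, g3, g4, g5⟩ := hgood
  have hyt : τ y1 = x1 := by rw [hy1d, ht]
  have hx2y1 : x2 ≠ y1 := by
    intro h
    rw [h, hy1] at hx2
    exact h01 hx2
  have hcase := F4_case (φ1 x1) (φ2 x1) (φ1 y1) (φ2 y1) (g3 x1) (g4 x1)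
    ((g5 x1).2 (by right; right; left; rfl))
  obtain ⟨c1, c2, c3, c4⟩ := hcase
  refine ⟨φ1, φ2 ∘ s, g1, ?_, ?_, ?_, ?_⟩
  · intro z
    simp only [Function.comp]
    have := g2 (s z)
    simp only [hss] at this
    exact this
  · intro z
    simp only [Function.comp]
    by_cases hz1 : z = x1
    · subst hz1; rw [hsx]; exact c1
    · by_cases hz2 : z = y1
      · rw [hz2, hsy, c2]; exact c1
      · rw [hso z hz1 hz2]; exact g3 z
  · intro z
    simp only [Function.comp]
    by_cases hz1 : z = x1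
    · subst hz1; rw [← hy1d, hsx, hsy]; exact c2
    · by_cases hz2 : z = y1
      · rw [hz2, hyt, hsy, hsx]; exact c2.symm
      · have e1 : τ z ≠ x1 := fun h => hz2 (by rw [hy1d, ← h, ht])
        have e2 : τ z ≠ y1 := fun h => hz1 (by rw [← ht z, h, hyt])
        rw [hso z hz1 hz2, hso _ e1 e2]; exact g4 z
  · intro z
    simp only [Function.comp]
    by_cases hz1 : z = x1
    · subst hz1; rw [hsx, ← hy1d, c3]; simp
    · by_cases hz2 : z = y1
      · rw [hz2, hsy, hyt, c4]; simp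
      · rw [hso z hz1 hz2, g5 z]
        tauto

end

end Pool.Agent.H416R2.BF
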