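import Mathlib

set_option autoImplicit false

/-!
# Definitions for a pair of perfect matchings of a graph
-/

namespace Pool.Agent.H416R2.BF

variable {V : Type*} {G : SimpleGraph V}

/-- `D`: the graph formed by the edges lying in exactly one of the two matchings. -/
def diffG (M₁ M₂ : G.Subgraph) : SimpleGraph V where
  Adj u v := (M₁.Adj u v ∧ ¬ M₂.Adj u v) ∨ (M₂.Adj u v ∧ ¬ M₁.Adj u v)
  symm := ⟨by
    rintro u v (⟨h1, h2⟩ | ⟨h1, h2⟩)
    · exact Or.inl ⟨h1.symm, fun h => h2 h.symm⟩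
    · exact Or.inr ⟨h1.symm, fun h => h2 h.symm⟩⟩
  loopless := ⟨by
    rintro u (⟨h1, _⟩ | ⟨h1, _⟩)
    · exact G.loopless.irrefl u h1.adj_sub
    · exact G.loopless.irrefl u h1.adj_sub⟩

/-- `Q`: the graph formed by the edges of `G` lying in neither of the two matchings. -/
def restG (M₁ M₂ : G.Subgraph) : SimpleGraph V where
  Adj u v := G.Adj u v ∧ ¬ M₁.Adj u v ∧ ¬ M₂.Adj u v
  symm := ⟨by
    rintro u v ⟨h, h1, h2⟩
    exact ⟨h.symm, fun h => h1 h.symm, fun h => h2 h.symm⟩⟩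
  loopless := ⟨by
    rintro u ⟨h, _⟩
    exact G.loopless.irrefl u h⟩

/-- `H`: the graph obtained from `G` by deleting the edges common to the two matchings. -/
def sepG (M₁ M₂ : G.Subgraph) : SimpleGraph V where
  Adj u v := G.Adj u v ∧ ¬ (M₁.Adj u v ∧ M₂.Adj u v)
  symm := ⟨by
    rintro u v ⟨h, h1⟩
    exact ⟨h.symm, fun h => h1 ⟨h.1.symm, h.2.symm⟩⟩⟩
  loopless := ⟨by
    rintro u ⟨h, _⟩
    exact G.loopless.irrefl u h⟩

/-- `v` lies on a circuit of `D`. -/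
def OnD (M₁ M₂ : G.Subgraph) (v : V) : Prop := ∃ w, (diffG M₁ M₂).Adj v w

/-- `x` and `y` are the two ends of a path component of `Q`, and exactly one of them, `y`,
is covered by the matching `M₀`. -/
def Special (M₁ M₂ M₀ : G.Subgraph) (x y : V) : Prop :=
  OnD M₁ M₂ x ∧ OnD M₁ M₂ y ∧ (restG M₁ M₂).Reachable x y ∧ x ∉ M₀.verts ∧ y ∈ M₀.verts

/-- In the component of `H` containing `x₁`, every circuit of `D` passes through one of
`x₁, y₁` and through one of `x₂, y₂`, and every walk of `D` from `x₁` to `y₁` meets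
`{x₂, y₂}`. -/
def Alternating (M₁ M₂ : G.Subgraph) (x₁ y₁ x₂ y₂ : V) : Prop :=
  (∀ z, OnD M₁ M₂ z → (sepG M₁ M₂).Reachable z x₁ →
    ((diffG M₁ M₂).Reachable z x₁ ∨ (diffG M₁ M₂).Reachable z y₁) ∧
    ((diffG M₁ M₂).Reachable z x₂ ∨ (diffG M₁ M₂).Reachable z y₂)) ∧
  ∀ p : (diffG M₁ M₂).Walk x₁ y₁, x₂ ∈ p.support ∨ y₂ ∈ p.support

end Pool.Agent.H416R2.BF
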