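import Mathlib
import Pool.Agent.H416R2.BFChord

set_option autoImplicit false

/-!
# Local solution in one component
-/

namespace Pool.Agent.H416R2.BF

open Finset

theorem zmod2_cases (t : ZMod 2) : t = 0 ∨ t = 1 := by revert t; decide

theorem local_solution {V : Type*} [Fintype V] [DecidableEq V] (m1 m2 τ : V → V)
    (h1 : ∀ v, m1 (m1 v) = v) (h1' : ∀ v, m1 v ≠ v)
    (h2 : ∀ v, m2 (m2 v) = v) (h2' : ∀ v, m2 v ≠ v)
    (ht : ∀ v, m1 v ≠ m2 v → (τ (τ v) = v ∧ τ v ≠ v ∧ m1 (τ v) ≠ m2 (τ v)))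
    (D : SimpleGraph V)
    (hD : ∀ u v, D.Adj u v ↔ (m1 u ≠ m2 u ∧ (v = m1 u ∨ v = m2 u)))
    (R : V → Prop)
    (hR1 : ∀ v, m1 v ≠ m2 v → R v → R (m1 v))
    (hR2 : ∀ v, m1 v ≠ m2 v → R v → R (m2 v))
    (hRt : ∀ v, m1 v ≠ m2 v → R v → R (τ v))
    (x1 x2 : V) (hx1 : m1 x1 ≠ m2 x1) (hx1R : R x1) (hx2 : m1 x2 ≠ m2 x2) (hx2R : R x2)
    (hne : x2 ≠ x1) (hne' : x2 ≠ τ x1)
    (hcirc : ∀ z, m1 z ≠ m2 z → R z → (D.Reachable z x1 ∨ D.Reachable z (τ x1)) ∧
      (D.Reachable z x2 ∨ D.Reachable z (τ x2)))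
    (hsep : ∀ p : D.Walk x1 (τ x1), x2 ∈ p.support ∨ τ x2 ∈ p.support) :
    ∃ φ1 φ2 : V → F4, ∀ v, m1 v ≠ m2 v → R v →
      (φ1 (m1 v) = φ1 v ∧ φ2 (m2 v) = φ2 v ∧ φ1 v + φ2 v ≠ 0 ∧
        φ1 (τ v) + φ2 (τ v) = φ1 v + φ2 v ∧
        (B (φ1 v + φ1 (τ v)) (φ1 v + φ2 v) = 1 ↔ (v = x1 ∨ v = τ x1 ∨ v = x2 ∨ v = τ x2))) := by
  classical
  have hX1 : ∀ v, m1 v ≠ m2 v → m1 (m1 v) ≠ m2 (m1 v) := by
    intro v hv h
    apply hv
    have : m2 (m1 (m1 v)) = m2 (m2 (m1 v)) := congrArg m2 h
    rw [h1, h2] at this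
    exact this.symm
  have hX2 : ∀ v, m1 v ≠ m2 v → m1 (m2 v) ≠ m2 (m2 v) := by
    intro v hv h
    apply hv
    have : m1 (m1 (m2 v)) = m1 (m2 (m2 v)) := congrArg m1 h
    rw [h1, h2] at this
    exact this.symm
  let X := {v : V // m1 v ≠ m2 v ∧ R v}
  let n1 : X → X := fun v => ⟨m1 v.1, hX1 v.1 v.2.1, hR1 v.1 v.2.1 v.2.2⟩
  let n2 : X → X := fun v => ⟨m2 v.1, hX2 v.1 v.2.1, hR2 v.1 v.2.1 v.2.2⟩
  let σ : X → X := fun v => ⟨τ v.1, (ht v.1 v.2.1).2.2, hRt v.1 v.2.1 v.2.2⟩
  have k1 : ∀ x, n1 (n1 x) = x := fun x => Subtype.ext (h1 x.1)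
  have k1' : ∀ x, n1 x ≠ x := fun x h => h1' x.1 (congrArg Subtype.val h)
  have k2 : ∀ x, n2 (n2 x) = x := fun x => Subtype.ext (h2 x.1)
  have k2' : ∀ x, n2 x ≠ x := fun x h => h2' x.1 (congrArg Subtype.val h)
  have kt : ∀ x, σ (σ x) = x := fun x => Subtype.ext (ht x.1 x.2.1).1
  have kt' : ∀ x, σ x ≠ x := fun x h => (ht x.1 x.2.1).2.1 (congrArg Subtype.val h)
  let a1 : X := ⟨x1, hx1, hx1R⟩
  let a2 : X := ⟨x2, hx2, hx2R⟩
  have ha21 : a2 ≠ a1 := fun h => hne (congrArg Subtype.val h)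
  have ha21' : a2 ≠ σ a1 := fun h => hne' (congrArg Subtype.val h)
  -- reachability gives algebraic connectedness
  have hconn : ∀ a b : X, D.Reachable a.1 b.1 → Conn n1 n2 a b := by
    intro a b hab
    have key : ∀ w, Relation.ReflTransGen D.Adj a.1 w →
        ∃ hw : m1 w ≠ m2 w ∧ R w, Conn n1 n2 a ⟨w, hw⟩ := by
      intro w hw
      induction hw with
      | refl => exact ⟨a.2, Conn.refl _ _ _⟩
      | tail _ hbc ih =>
        obtain ⟨hb, hcb⟩ := ih
        rw [hD] at hbc
        rcases hbc.2 with h | h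
        · subst h
          exact ⟨⟨hX1 _ hb.1, hR1 _ hb.1 hb.2⟩, hcb.trans (Conn.m1 k1 k1' ⟨_, hb⟩)⟩
        · subst h
          exact ⟨⟨hX2 _ hb.1, hR2 _ hb.1 hb.2⟩, hcb.trans (Conn.m2 k2 k2' ⟨_, hb⟩)⟩
    rw [SimpleGraph.reachable_iff_reflTransGen] at hab
    obtain ⟨_, hw⟩ := key _ hab
    exact hw
  have hgood : GoodCol n1 n2 σ (fun x => x = a1 ∨ x = σ a1 ∨ x = a2 ∨ x = σ a2) := by
    by_cases hxy : D.Reachable x1 (τ x1)
    · -- one circuit
      have hall : ∀ a b : X, D.Reachable a.1 b.1 := by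
        intro a b
        have e : ∀ c : X, D.Reachable c.1 x1 := by
          intro c
          rcases (hcirc c.1 c.2.1 c.2.2).1 with h | h
          · exact h
          · exact h.trans hxy.symm
        exact (e a).trans (e b).symm
      let A : V → Prop := fun v => ∃ p : D.Walk x1 v, x2 ∉ p.support ∧ τ x2 ∉ p.support
      have hA1 : A x1 := by
        refine ⟨SimpleGraph.Walk.nil, ?_, ?_⟩
        · simp [hne]
        · simp only [SimpleGraph.Walk.support_nil, List.mem_singleton]
          intro h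
          apply hne'
          rw [← h, (ht x2 hx2).1]
      have hAstep : ∀ u v, A u → D.Adj u v → v ≠ x2 → v ≠ τ x2 → A v := by
        rintro u v ⟨p, hp1, hp2⟩ huv hv1 hv2
        refine ⟨p.concat huv, ?_, ?_⟩
        · rw [SimpleGraph.Walk.support_concat, List.mem_append, List.mem_singleton]
          rintro (h | h)
          · exact hp1 h
          · exact hv1 h.symm
        · rw [SimpleGraph.Walk.support_concat, List.mem_append, List.mem_singleton]
          rintro (h | h)
          · exact hp2 h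
          · exact hv2 h.symm
      have hAy1 : ¬ A (τ x1) := by
        rintro ⟨p, hp1, hp2⟩
        rcases hsep p with h | h
        · exact hp1 h
        · exact hp2 h
      have hyne2 : τ x1 ≠ x2 := hne'.symm
      have hyney2 : τ x1 ≠ τ x2 := by
        intro h
        apply hne
        rw [← (ht x2 hx2).1, ← h, (ht x1 hx1).1]
      let ψ1 : X → ZMod 2 := fun z => if A z.1 ∨ A (m1 z.1) then 1 else 0
      let ψ2 : X → ZMod 2 := fun z => if A z.1 ∨ A (m2 z.1) then 1 else 0
      have i1 : ∀ z, ψ1 (n1 z) = ψ1 z := by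
        intro z
        have e : (A (m1 z.1) ∨ A (m1 (m1 z.1))) ↔ (A z.1 ∨ A (m1 z.1)) := by
          rw [h1, or_comm]
        show (if A (m1 z.1) ∨ A (m1 (m1 z.1)) then (1 : ZMod 2) else 0) = _
        simp only [e]
        rfl
      have i2 : ∀ z, ψ2 (n2 z) = ψ2 z := by
        intro z
        have e : (A (m2 z.1) ∨ A (m2 (m2 z.1))) ↔ (A z.1 ∨ A (m2 z.1)) := by
          rw [h2, or_comm]
        show (if A (m2 z.1) ∨ A (m2 (m2 z.1)) then (1 : ZMod 2) else 0) = _
        simp only [e]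
        rfl
      have hadj1 : ∀ z : X, D.Adj (m1 z.1) z.1 := by
        intro z
        rw [hD]
        exact ⟨hX1 _ z.2.1, Or.inl (h1 _).symm⟩
      have hadj2 : ∀ z : X, D.Adj (m2 z.1) z.1 := by
        intro z
        rw [hD]
        exact ⟨hX2 _ z.2.1, Or.inr (h2 _).symm⟩
      have i3 : ∀ z, z ≠ a2 → z ≠ σ a2 → ψ1 z + ψ2 z = 0 := by
        intro z hz hz'
        have hz1 : z.1 ≠ x2 := fun h => hz (Subtype.ext h)
        have hz2 : z.1 ≠ τ x2 := fun h => hz' (Subtype.ext h)
        by_cases hA : A z.1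
        · have e1 : ψ1 z = 1 := if_pos (Or.inl hA)
          have e2 : ψ2 z = 1 := if_pos (Or.inl hA)
          rw [e1, e2, add_self2]
        · have e1 : ψ1 z = 0 := by
            apply if_neg
            rintro (h | h)
            · exact hA h
            · exact hA (hAstep _ _ h (hadj1 z) hz1 hz2)
          have e2 : ψ2 z = 0 := by
            apply if_neg
            rintro (h | h)
            · exact hA h
            · exact hA (hAstep _ _ h (hadj2 z) hz1 hz2)
          rw [e1, e2, add_self2]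
      have hsum : ∑ z, (ψ1 z + ψ2 z) = 0 := by
        rw [Finset.sum_add_distrib, sum_inv_zero n1 k1 k1' ψ1 i1, sum_inv_zero n2 k2 k2' ψ2 i2,
          add_zero]
      have hsum2 : (ψ1 a2 + ψ2 a2) + (ψ1 (σ a2) + ψ2 (σ a2)) = 0 := by
        rw [← hsum]
        symm
        rw [← Finset.add_sum_erase univ _ (mem_univ a2)]
        rw [← Finset.add_sum_erase (univ.erase a2) _
          (Finset.mem_erase.2 ⟨kt' a2, mem_univ (σ a2)⟩)]
        rw [Finset.sum_eq_zero (s := (univ.erase a2).erase (σ a2)), add_zero]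
        intro z hz
        rw [Finset.mem_erase, Finset.mem_erase] at hz
        exact i3 z hz.2.1 hz.1
      have v1 : ψ1 a1 = 1 := if_pos (Or.inl hA1)
      have v2 : ψ1 (σ a1) = 0 := by
        apply if_neg
        rintro (h | h)
        · exact hAy1 h
        · exact hAy1 (hAstep _ _ h (hadj1 (σ a1)) hyne2 hyney2)
      have hnz : ψ1 a2 + ψ2 a2 ≠ 0 := by
        intro h0
        have h0' : ψ1 (σ a2) + ψ2 (σ a2) = 0 := by
          rw [h0, zero_add] at hsum2
          exact hsum2
        have heq : ∀ z, ψ1 z = ψ2 z := by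
          intro z
          have : ψ1 z + ψ2 z = 0 := by
            by_cases hz : z = a2
            · rw [hz]; exact h0
            · by_cases hz' : z = σ a2
              · rw [hz']; exact h0'
              · exact i3 z hz hz'
          have e := add_self2 (ψ2 z)
          have : ψ1 z + ψ2 z = ψ2 z + ψ2 z := by rw [this, e]
          exact add_right_cancel this
        -- ψ1 is constant along D
        have key : ∀ w, Relation.ReflTransGen D.Adj x1 w →
            ∃ hw : m1 w ≠ m2 w ∧ R w, ψ1 ⟨w, hw⟩ = 1 := by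
          intro w hw
          induction hw with
          | refl => exact ⟨a1.2, v1⟩
          | tail _ hbc ih =>
            obtain ⟨hb, hcb⟩ := ih
            rw [hD] at hbc
            rcases hbc.2 with h | h
            · subst h
              refine ⟨⟨hX1 _ hb.1, hR1 _ hb.1 hb.2⟩, ?_⟩
              have := i1 ⟨_, hb⟩
              rw [hcb] at this
              exact this
            · subst h
              refine ⟨⟨hX2 _ hb.1, hR2 _ hb.1 hb.2⟩, ?_⟩
              have := i2 ⟨_, hb⟩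
              rw [← heq, ← heq, hcb] at this
              exact this
        have hr := hxy
        rw [SimpleGraph.reachable_iff_reflTransGen] at hr
        obtain ⟨hw, hw'⟩ := key _ hr
        have : ψ1 (σ a1) = 1 := hw'
        rw [v2] at this
        exact absurd this (by decide)
      have hone : ψ1 a2 + ψ2 a2 = 1 := (zmod2_cases _).resolve_left hnz
      have hone' : ψ1 (σ a2) + ψ2 (σ a2) = 1 := by
        rw [hone] at hsum2
        rcases zmod2_cases (ψ1 (σ a2) + ψ2 (σ a2)) with h | h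
        · rw [h] at hsum2; exact absurd hsum2 (by decide)
        · exact h
      refine chord_single n1 n2 σ k1 k1' k2 k2' kt kt' (fun x => hconn _ _ (hall _ _)) a1 a2
        ha21 ha21' ⟨ψ1, ψ2, i1, i2, ?_, ?_⟩
      · intro z
        unfold dl
        by_cases hz : z = a2
        · rw [hz, hone, if_pos rfl, if_neg (kt' a2).symm, add_zero]
        · by_cases hz' : z = σ a2
          · rw [hz', hone', if_pos rfl, if_neg (kt' a2), zero_add]
          · rw [i3 z hz hz', if_neg hz, if_neg hz', add_zero]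
      · rw [v1, v2, add_zero]
    · -- two circuits
      let χ : X → ZMod 2 := fun z => if D.Reachable z.1 x1 then 1 else 0
      have hstep1 : ∀ z : X, D.Reachable (m1 z.1) z.1 := by
        intro z
        apply SimpleGraph.Adj.reachable
        rw [hD]
        exact ⟨hX1 _ z.2.1, Or.inl (h1 _).symm⟩
      have hstep2 : ∀ z : X, D.Reachable (m2 z.1) z.1 := by
        intro z
        apply SimpleGraph.Adj.reachable
        rw [hD]
        exact ⟨hX2 _ z.2.1, Or.inr (h2 _).symm⟩
      have c1 : ∀ z, χ (n1 z) = χ z := by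
        intro z
        have : D.Reachable (n1 z).1 x1 ↔ D.Reachable z.1 x1 :=
          ⟨fun h => (hstep1 z).symm.trans h, fun h => (hstep1 z).trans h⟩
        simp only [χ, this]
      have c2 : ∀ z, χ (n2 z) = χ z := by
        intro z
        have : D.Reachable (n2 z).1 x1 ↔ D.Reachable z.1 x1 :=
          ⟨fun h => (hstep2 z).symm.trans h, fun h => (hstep2 z).trans h⟩
        simp only [χ, this]
      have hy1R : ∀ z : X, ¬ D.Reachable z.1 x1 → D.Reachable z.1 (τ x1) :=
        fun z h => (hcirc z.1 z.2.1 z.2.2).1.resolve_left h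
      have c3' : ∀ a b : X, χ a = χ b → Conn n1 n2 a b := by
        intro a b hab
        apply hconn
        by_cases ha : D.Reachable a.1 x1
        · by_cases hb : D.Reachable b.1 x1
          · exact ha.trans hb.symm
          · simp only [χ, if_pos ha, if_neg hb] at hab
            exact absurd hab (by decide)
        · by_cases hb : D.Reachable b.1 x1
          · simp only [χ, if_neg ha, if_pos hb] at hab
            exact absurd hab (by decide)
          · exact (hy1R a ha).trans (hy1R b hb).symm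
      have d1 : χ a1 = 1 := if_pos (SimpleGraph.Reachable.refl _)
      have d2 : χ (σ a1) = 0 := if_neg (fun h => hxy h.symm)
      have e1 := (hcirc a1.1 a1.2.1 a1.2.2).2
      have e2 := (hcirc (σ a1).1 (σ a1).2.1 (σ a1).2.2).2
      by_cases hx : D.Reachable x2 x1
      · have d3 : χ a2 = 1 := if_pos hx
        have d4 : χ (σ a2) = 0 := by
          apply if_neg
          intro h
          apply hxy
          rcases e2 with e | e
          · exact (e.trans hx).symm
          · exact (e.trans h).symm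
        exact chord_two n1 n2 σ k1 k1' k2 k2' kt kt' χ c1 c2 c3' a1 a2 ha21 d1 d2 d3 d4
      · have hx' : D.Reachable (τ x2) x1 := by
          rcases e1 with e | e
          · exact absurd e.symm hx
          · exact e.symm
        have d3 : χ (σ a2) = 1 := if_pos hx'
        have d4 : χ (σ (σ a2)) = 0 := by rw [kt]; exact if_neg hx
        have hne3 : σ a2 ≠ a1 := fun h => ha21' (by rw [← h, kt])
        have := chord_two n1 n2 σ k1 k1' k2 k2' kt kt' χ c1 c2 c3' a1 (σ a2) hne3 d1 d2 d3 d4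
        obtain ⟨φ1, φ2, g1, g2, g3, g4, g5⟩ := this
        refine ⟨φ1, φ2, g1, g2, g3, g4, fun x => ?_⟩
        rw [g5, kt]
        tauto
  obtain ⟨φ1, φ2, g1, g2, g3, g4, g5⟩ := hgood
  refine ⟨fun v => if h : m1 v ≠ m2 v ∧ R v then φ1 ⟨v, h⟩ else 0,
    fun v => if h : m1 v ≠ m2 v ∧ R v then φ2 ⟨v, h⟩ else 0, ?_⟩
  intro v hv hvR
  have hv0 : m1 v ≠ m2 v ∧ R v := ⟨hv, hvR⟩
  have hv1 : m1 (m1 v) ≠ m2 (m1 v) ∧ R (m1 v) := (n1 ⟨v, hv0⟩).2
  have hv2 : m1 (m2 v) ≠ m2 (m2 v) ∧ R (m2 v) := (n2 ⟨v, hv0⟩).2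
  have hv3 : m1 (τ v) ≠ m2 (τ v) ∧ R (τ v) := (σ ⟨v, hv0⟩).2
  simp only [dif_pos hv0, dif_pos hv1, dif_pos hv2, dif_pos hv3]
  refine ⟨g1 ⟨v, hv0⟩, g2 ⟨v, hv0⟩, g3 ⟨v, hv0⟩, g4 ⟨v, hv0⟩, ?_⟩
  have := g5 ⟨v, hv0⟩
  rw [show (⟨τ v, hv3⟩ : X) = σ ⟨v, hv0⟩ from rfl, this]
  constructor
  · rintro (h | h | h | h)
    · exact Or.inl (congrArg Subtype.val h)
    · exact Or.inr (Or.inl (congrArg Subtype.val h))
    · exact Or.inr (Or.inr (Or.inl (congrArg Subtype.val h)))
    · exact Or.inr (Or.inr (Or.inr (congrArg Subtype.val h)))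
  · rintro (h | h | h | h)
    · exact Or.inl (Subtype.ext h)
    · exact Or.inr (Or.inl (Subtype.ext h))
    · exact Or.inr (Or.inr (Or.inl (Subtype.ext h)))
    · exact Or.inr (Or.inr (Or.inr (Subtype.ext h)))

end Pool.Agent.H416R2.BF
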