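import Mathlib

set_option autoImplicit false

/-!
# Components of a graph with all degrees one or two
-/

namespace Pool.Agent.H416R2.BF

open Finset

theorem ends_exist {V : Type*} [Fintype V] (Q : SimpleGraph V) (X : Set V)
    (h1 : ∀ v ∈ X, (Q.neighborSet v).ncard = 1) (h2 : ∀ v ∉ X, (Q.neighborSet v).ncard = 2)
    (x : V) (hx : x ∈ X) :
    ∃ y, y ≠ x ∧ y ∈ X ∧ Q.Reachable x y ∧ ∀ z ∈ X, Q.Reachable x z → z = x ∨ z = y := by
  classical
  let C := Q.connectedComponentMk x
  let T : SimpleGraph C := C.toSimpleGraph
  have hT : T.Connected := C.connected_toSimpleGraph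
  have : Fintype C := Fintype.ofFinite _
  have hxC : x ∈ C := rfl
  have hdeg : ∀ v : C, T.degree v = (Q.neighborSet v.1).ncard := by
    intro v
    have e1 : Q.neighborSet v.1 = Subtype.val '' (T.neighborSet v) := by
      ext w
      constructor
      · intro hw
        have hwC : w ∈ C := by
          have hv : Q.connectedComponentMk v.1 = C := v.2
          have : Q.connectedComponentMk w = C := by
            rw [← hv]
            exact (SimpleGraph.ConnectedComponent.connectedComponentMk_eq_of_adj hw).symm
          exact this
        refine ⟨⟨w, hwC⟩, ?_, rfl⟩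
        exact hw
      · rintro ⟨w', hw', rfl⟩
        exact hw'
    rw [e1, Set.ncard_image_of_injective _ Subtype.val_injective]
    rw [Set.ncard_eq_toFinset_card']
    rfl
  have hodd : Odd (T.degree ⟨x, hxC⟩) := by
    rw [hdeg, h1 x hx]; decide
  obtain ⟨w, hwx, hwo⟩ := T.exists_ne_odd_degree_of_exists_odd_degree _ hodd
  have hwX : w.1 ∈ X := by
    by_contra h
    rw [hdeg, h2 _ h] at hwo
    exact absurd hwo (by decide)
  have hreach : ∀ v : C, Q.Reachable x v.1 := by
    intro v
    have : Q.connectedComponentMk v.1 = C := v.2
    exact (SimpleGraph.ConnectedComponent.exact this).symm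
  refine ⟨w.1, ?_, hwX, hreach w, ?_⟩
  · intro h
    apply hwx
    exact Subtype.ext h
  · intro z hz hxz
    by_contra hcon
    push Not at hcon
    have hzC : z ∈ C := by
      have : Q.connectedComponentMk z = Q.connectedComponentMk x :=
        SimpleGraph.ConnectedComponent.sound hxz.symm
      exact this
    have hsum := T.sum_degrees_eq_twice_card_edges
    have hcard : Fintype.card C ≤ #T.edgeFinset + 1 := by
      have := hT.card_vert_le_card_edgeSet_add_one
      rw [Nat.card_eq_fintype_card, Nat.card_eq_fintype_card] at this
      rw [SimpleGraph.edgeFinset, Set.toFinset_card]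
      exact this
    have htot : ∑ v : C, T.degree v + (univ.filter (fun v : C => v.1 ∈ X)).card
        = 2 * Fintype.card C := by
      rw [Finset.card_filter, ← Finset.sum_add_distrib]
      have : ∀ v : C, T.degree v + (if v.1 ∈ X then 1 else 0) = 2 := by
        intro v
        rw [hdeg]
        by_cases hv : v.1 ∈ X
        · rw [h1 _ hv, if_pos hv]
        · rw [h2 _ hv, if_neg hv]
      rw [Finset.sum_congr rfl (fun v _ => this v)]
      simp [mul_comm]
    have hthree : 3 ≤ (univ.filter (fun v : C => v.1 ∈ X)).card := by
      have hsub : ({(⟨x, hxC⟩ : C), w, (⟨z, hzC⟩ : C)} : Finset C)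
          ⊆ univ.filter (fun v : C => v.1 ∈ X) := by
        intro v hv
        rw [mem_insert, mem_insert, mem_singleton] at hv
        rw [mem_filter]
        refine ⟨mem_univ _, ?_⟩
        rcases hv with h | h | h
        · rw [h]; exact hx
        · rw [h]; exact hwX
        · rw [h]; exact hz
      have hc3 : ({(⟨x, hxC⟩ : C), w, (⟨z, hzC⟩ : C)} : Finset C).card = 3 := by
        rw [Finset.card_eq_three]
        refine ⟨_, _, _, hwx.symm, ?_, ?_, rfl⟩
        · intro h
          exact hcon.1 (congrArg Subtype.val h).symm
        · intro h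
          exact hcon.2 (congrArg Subtype.val h).symm
      rw [← hc3]
      exact Finset.card_le_card hsub
    omega

end Pool.Agent.H416R2.BF
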