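import Mathlib
import Pool.Agent.H416R2.BFPath
import Pool.Agent.H416R2.BFLocal
import Pool.Agent.H416R2.BFDefs

set_option autoImplicit false

/-!
# Berge–Fulkerson coverings through a pair of perfect matchings in interlaced position
-/

namespace Pool.Agent.H416R2.BF

open Finset

variable {V : Type*} {G : SimpleGraph V}

theorem pm_fun (M : G.Subgraph) (h : M.IsPerfectMatching) :
    ∃ m : V → V, (∀ v w, M.Adj v w ↔ w = m v) ∧ (∀ v, m (m v) = v) ∧ (∀ v, m v ≠ v) ∧
      ∀ v, G.Adj v (m v) := by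
  have h' := SimpleGraph.Subgraph.isPerfectMatching_iff.1 h
  choose m hm hm' using h'
  have key : ∀ v w, M.Adj v w ↔ w = m v :=
    fun v w => ⟨fun h => hm' v w h, fun h => by rw [h]; exact hm v⟩
  refine ⟨m, key, ?_, ?_, fun v => (hm v).adj_sub⟩
  · intro v
    have : M.Adj (m v) v := (hm v).symm
    exact ((key _ _).1 this).symm
  · intro v hv
    have : G.Adj v (m v) := (hm v).adj_sub
    rw [hv] at this
    exact G.loopless.irrefl v this

theorem F4_unique (a p r : F4) (h : p + r ≠ 0) :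
    (a = p ∧ a ≠ r ∧ B a (p + r) ≠ B p (p + r) + 1) ∨
    (a ≠ p ∧ a = r ∧ B a (p + r) ≠ B p (p + r) + 1) ∨
    (a ≠ p ∧ a ≠ r ∧ B a (p + r) = B p (p + r) + 1) := by
  revert a p r; decide

theorem zmod2_add_one (s t : ZMod 2) : (s = t ∧ s ≠ t + 1) ∨ (s ≠ t ∧ s = t + 1) := by
  revert s t; decide

theorem B_two (k : F4) (hk : k ≠ 0) (b : ZMod 2) :
    (if B (0, 0) k = b then 1 else 0) + (if B (1, 0) k = b then 1 else 0)
     + (if B (0, 1) k = b then 1 else 0) + (if B (1, 1) k = b then 1 else 0) = 2 := by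
  revert k b; decide

theorem eq_one (p : F4) :
    (if p = (0, 0) then 1 else 0) + (if p = (1, 0) then 1 else 0)
     + (if p = (0, 1) then 1 else 0) + (if p = (1, 1) then 1 else 0) = 1 := by
  revert p; decide

theorem zmod2_iff {s t : ZMod 2} (h : s = 1 ↔ t = 1) : s = t := by
  revert s t; decide

/-- From suitable functions to a Berge–Fulkerson covering. -/
theorem assemble [Fintype V] [DecidableEq V] (M₁ M₂ M₀ : G.Subgraph)
    (h₁ : M₁.IsPerfectMatching) (h₂ : M₂.IsPerfectMatching)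
    (m1 m2 : V → V) (hm1 : ∀ v w, M₁.Adj v w ↔ w = m1 v) (hm2 : ∀ v w, M₂.Adj v w ↔ w = m2 v)
    (h1 : ∀ v, m1 (m1 v) = v) (h2 : ∀ v, m2 (m2 v) = v)
    (ha1 : ∀ v, G.Adj v (m1 v)) (ha2 : ∀ v, G.Adj v (m2 v))
    (hX1 : ∀ v, m1 v ≠ m2 v → m1 (m1 v) ≠ m2 (m1 v))
    (hX2 : ∀ v, m1 v ≠ m2 v → m1 (m2 v) ≠ m2 (m2 v))
    (Q : SimpleGraph V) (hQ : ∀ u v, Q.Adj u v ↔ G.Adj u v ∧ v ≠ m1 u ∧ v ≠ m2 u)
    (hq1 : ∀ v, m1 v ≠ m2 v → (Q.neighborSet v).ncard = 1)
    (hq2 : ∀ v, m1 v = m2 v → (Q.neighborSet v).ncard = 2)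
    (hM₀ : M₀.IsMatching) (hM₀Q : ∀ u v, M₀.Adj u v → Q.Adj u v)
    (hcov : ∀ v, m1 v = m2 v → v ∈ M₀.verts)
    (φ1 φ2 κ : V → F4) (β δ : V → ZMod 2)
    (hδ0 : ∀ v, v ∈ M₀.verts → δ v = 0) (hδ1 : ∀ v, v ∉ M₀.verts → δ v = 1)
    (hφ1 : ∀ v, m1 v ≠ m2 v → φ1 (m1 v) = φ1 v) (hφ2 : ∀ v, m1 v ≠ m2 v → φ2 (m2 v) = φ2 v)
    (hκ0 : ∀ v, κ v ≠ 0) (hκ : ∀ u v, Q.Adj u v → κ v = κ u ∧ β v = β u)
    (hκ1 : ∀ v, m1 v ≠ m2 v → κ v = φ1 v + φ2 v)
    (hβ : ∀ v, m1 v ≠ m2 v → β v = B (φ1 v) (κ v) + 1 + δ v) :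
    ∃ P : Fin 6 → G.Subgraph, (∀ i, (P i).IsPerfectMatching) ∧ P 0 = M₁ ∧ P 1 = M₂ ∧
      ∀ u v, G.Adj u v → {i : Fin 6 | (P i).Adj u v}.ncard = 2 := by
  classical
  let W : F4 → V → V → Prop := fun a v w =>
    (w = m1 v ∧ m1 v ≠ m2 v ∧ φ1 v = a) ∨ (w = m2 v ∧ m1 v ≠ m2 v ∧ φ2 v = a) ∨
    (M₀.Adj v w ∧ B a (κ v) = β v) ∨ (Q.Adj v w ∧ ¬ M₀.Adj v w ∧ B a (κ v) = β v + 1)
  have hWsub : ∀ a v w, W a v w → G.Adj v w := by
    rintro a v w (⟨h, _, _⟩ | ⟨h, _, _⟩ | ⟨h, _⟩ | ⟨h, _, _⟩)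
    · rw [h]; exact ha1 v
    · rw [h]; exact ha2 v
    · exact h.adj_sub
    · exact ((hQ _ _).1 h).1
  have hWsymm : ∀ a v w, W a v w → W a w v := by
    rintro a v w (⟨h, h', h''⟩ | ⟨h, h', h''⟩ | ⟨h, h'⟩ | ⟨h, h', h''⟩)
    · left
      subst h
      exact ⟨(h1 v).symm, hX1 v h', by rw [hφ1 v h', h'']⟩
    · right; left
      subst h
      exact ⟨(h2 v).symm, hX2 v h', by rw [hφ2 v h', h'']⟩
    · right; right; left
      obtain ⟨e1, e2⟩ := hκ v w (hM₀Q _ _ h)
      exact ⟨h.symm, by rw [e1, e2]; exact h'⟩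
    · right; right; right
      obtain ⟨e1, e2⟩ := hκ v w h
      exact ⟨h.symm, fun e => h' e.symm, by rw [e1, e2]; exact h''⟩
  let N : F4 → G.Subgraph := fun a =>
    { verts := Set.univ
      Adj := W a
      adj_sub := fun h => hWsub a _ _ h
      edge_vert := fun _ => Set.mem_univ _
      symm := ⟨fun v w h => hWsymm a v w h⟩ }
  have hN : ∀ a v w, (N a).Adj v w ↔ W a v w := fun a v w => Iff.rfl
  have hm12 : ∀ v, ¬ Q.Adj v (m1 v) := fun v h => ((hQ _ _).1 h).2.1 rfl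
  have hm22 : ∀ v, ¬ Q.Adj v (m2 v) := fun v h => ((hQ _ _).1 h).2.2 rfl
  have hNpm : ∀ a, (N a).IsPerfectMatching := by
    intro a
    rw [SimpleGraph.Subgraph.isPerfectMatching_iff]
    intro v
    by_cases hv : m1 v = m2 v
    · -- off `D`
      obtain ⟨w0, hw0, hw0'⟩ := hM₀ (hcov v hv)
      have hw0Q : Q.Adj v w0 := hM₀Q _ _ hw0
      obtain ⟨q1, q2, hq12, hqq⟩ := Set.ncard_eq_two.1 (hq2 v hv)
      have hw0m : w0 = q1 ∨ w0 = q2 := by
        have : w0 ∈ Q.neighborSet v := hw0Q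
        rw [hqq] at this
        simpa using this
      obtain ⟨w1, hw1, hw1'⟩ : ∃ w1, (Q.Adj v w1 ∧ w1 ≠ w0) ∧
          ∀ w, Q.Adj v w → w ≠ w0 → w = w1 := by
        have hmem : ∀ w, Q.Adj v w ↔ (w = q1 ∨ w = q2) := by
          intro w
          have : w ∈ Q.neighborSet v ↔ w ∈ ({q1, q2} : Set V) := by rw [hqq]
          simpa using this
        rcases hw0m with h | h
        · refine ⟨q2, ⟨(hmem q2).2 (Or.inr rfl), by rw [h]; exact hq12.symm⟩, ?_⟩
          intro w hw hne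
          rcases (hmem w).1 hw with h' | h'
          · exact absurd (h'.trans h.symm) hne
          · exact h'
        · refine ⟨q1, ⟨(hmem q1).2 (Or.inl rfl), by rw [h]; exact hq12⟩, ?_⟩
          intro w hw hne
          rcases (hmem w).1 hw with h' | h'
          · exact h'
          · exact absurd (h'.trans h.symm) hne
      have hw1M : ¬ M₀.Adj v w1 := fun h => hw1.2 (hw0' w1 h)
      rcases zmod2_add_one (B a (κ v)) (β v) with ⟨e1, e2⟩ | ⟨e1, e2⟩
      · refine ⟨w0, Or.inr (Or.inr (Or.inl ⟨hw0, e1⟩)), ?_⟩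
        rintro w (⟨_, h, _⟩ | ⟨_, h, _⟩ | ⟨h, _⟩ | ⟨_, _, h⟩)
        · exact absurd hv h
        · exact absurd hv h
        · exact hw0' w h
        · exact absurd h e2
      · refine ⟨w1, Or.inr (Or.inr (Or.inr ⟨hw1.1, hw1M, e2⟩)), ?_⟩
        rintro w (⟨_, h, _⟩ | ⟨_, h, _⟩ | ⟨_, h⟩ | ⟨h, h', _⟩)
        · exact absurd hv h
        · exact absurd hv h
        · exact absurd h e1
        · refine hw1' w h ?_
          rintro rfl
          exact h' hw0
    · -- on `D`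
      obtain ⟨q, hq⟩ := Set.ncard_eq_one.1 (hq1 v hv)
      have hmem : ∀ w, Q.Adj v w ↔ w = q := by
        intro w
        have : w ∈ Q.neighborSet v ↔ w ∈ ({q} : Set V) := by rw [hq]
        simpa using this
      have hqm1 : q ≠ m1 v := fun h => hm12 v ((hmem _).2 h.symm)
      have hqm2 : q ≠ m2 v := fun h => hm22 v ((hmem _).2 h.symm)
      -- description of the edges of `N a` at `v`
      have hdesc : ∀ w, W a v w ↔ ((w = m1 v ∧ a = φ1 v) ∨ (w = m2 v ∧ a = φ2 v) ∨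
          (w = q ∧ B a (φ1 v + φ2 v) = B (φ1 v) (φ1 v + φ2 v) + 1)) := by
        intro w
        have hβv := hβ v hv
        rw [hκ1 v hv] at hβv
        by_cases hvM : v ∈ M₀.verts
        · obtain ⟨w0, hw0, hw0'⟩ := hM₀ hvM
          have hw0q : w0 = q := (hmem _).1 (hM₀Q _ _ hw0)
          rw [hδ0 v hvM, add_zero] at hβv
          constructor
          · rintro (⟨h, _, h'⟩ | ⟨h, _, h'⟩ | ⟨h, h'⟩ | ⟨h, h', _⟩)
            · exact Or.inl ⟨h, h'.symm⟩
            · exact Or.inr (Or.inl ⟨h, h'.symm⟩)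
            · right; right
              refine ⟨(hw0' w h).trans hw0q, ?_⟩
              rw [hκ1 v hv] at h'
              rw [h', hβv]
            · exfalso
              apply h'
              rw [(hmem w).1 h, ← hw0q]
              exact hw0
          · rintro (⟨h, h'⟩ | ⟨h, h'⟩ | ⟨h, h'⟩)
            · exact Or.inl ⟨h, hv, h'.symm⟩
            · exact Or.inr (Or.inl ⟨h, hv, h'.symm⟩)
            · right; right; left
              refine ⟨by rw [h, ← hw0q]; exact hw0, ?_⟩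
              rw [hκ1 v hv, h', hβv]
        · have hno : ∀ w, ¬ M₀.Adj v w := fun w h => hvM (M₀.edge_vert h)
          have hβ' : β v + 1 = B (φ1 v) (φ1 v + φ2 v) + 1 := by
            rw [hβv, hδ1 v hvM]
            have : (1 : ZMod 2) + 1 = 0 := by decide
            linear_combination this
          constructor
          · rintro (⟨h, _, h'⟩ | ⟨h, _, h'⟩ | ⟨h, _⟩ | ⟨h, _, h'⟩)
            · exact Or.inl ⟨h, h'.symm⟩
            · exact Or.inr (Or.inl ⟨h, h'.symm⟩)
            · exact absurd h (hno w)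
            · right; right
              refine ⟨(hmem w).1 h, ?_⟩
              rw [hκ1 v hv] at h'
              rw [h', hβ']
          · rintro (⟨h, h'⟩ | ⟨h, h'⟩ | ⟨h, h'⟩)
            · exact Or.inl ⟨h, hv, h'.symm⟩
            · exact Or.inr (Or.inl ⟨h, hv, h'.symm⟩)
            · right; right; right
              refine ⟨(hmem w).2 h, hno w, ?_⟩
              rw [hκ1 v hv, h', hβ']
      have hne0 : φ1 v + φ2 v ≠ 0 := by rw [← hκ1 v hv]; exact hκ0 v
      rcases F4_unique a (φ1 v) (φ2 v) hne0 with ⟨e1, e2, e3⟩ | ⟨e1, e2, e3⟩ | ⟨e1, e2, e3⟩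
      · refine ⟨m1 v, (hdesc _).2 (Or.inl ⟨rfl, e1⟩), ?_⟩
        intro w hw
        rcases (hdesc w).1 hw with ⟨h, _⟩ | ⟨_, h⟩ | ⟨_, h⟩
        · exact h
        · exact absurd h e2
        · exact absurd h e3
      · refine ⟨m2 v, (hdesc _).2 (Or.inr (Or.inl ⟨rfl, e2⟩)), ?_⟩
        intro w hw
        rcases (hdesc w).1 hw with ⟨_, h⟩ | ⟨h, _⟩ | ⟨_, h⟩
        · exact absurd h e1
        · exact h
        · exact absurd h e3
      · refine ⟨q, (hdesc _).2 (Or.inr (Or.inr ⟨rfl, e3⟩)), ?_⟩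
        intro w hw
        rcases (hdesc w).1 hw with ⟨_, h⟩ | ⟨_, h⟩ | ⟨h, _⟩
        · exact absurd h e1
        · exact absurd h e2
        · exact h
  let P : Fin 6 → G.Subgraph := ![M₁, M₂, N (0, 0), N (1, 0), N (0, 1), N (1, 1)]
  refine ⟨P, ?_, rfl, rfl, ?_⟩
  · intro i
    fin_cases i
    · exact h₁
    · exact h₂
    · exact hNpm _
    · exact hNpm _
    · exact hNpm _
    · exact hNpm _
  · intro u v huv
    have hcount : {i : Fin 6 | (P i).Adj u v}.ncard
        = (if v = m1 u then 1 else 0) + (if v = m2 u then 1 else 0)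
          + ((if W (0, 0) u v then 1 else 0) + (if W (1, 0) u v then 1 else 0)
            + (if W (0, 1) u v then 1 else 0) + (if W (1, 1) u v then 1 else 0)) := by
      have e : {i : Fin 6 | (P i).Adj u v} = ((univ.filter (fun i : Fin 6 => (P i).Adj u v) :
          Finset (Fin 6)) : Set (Fin 6)) := by
        ext i; simp
      rw [e, Set.ncard_coe_finset, Finset.card_filter, Fin.sum_univ_six]
      have e0 : (P 0).Adj u v ↔ v = m1 u := hm1 u v
      have e1 : (P 1).Adj u v ↔ v = m2 u := hm2 u v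
      have e2 : (P 2).Adj u v ↔ W (0, 0) u v := Iff.rfl
      have e3 : (P 3).Adj u v ↔ W (1, 0) u v := Iff.rfl
      have e4 : (P 4).Adj u v ↔ W (0, 1) u v := Iff.rfl
      have e5 : (P 5).Adj u v ↔ W (1, 1) u v := Iff.rfl
      simp only [e0, e1, e2, e3, e4, e5]
      ring
    rw [hcount]
    by_cases hu1 : v = m1 u
    · by_cases hu2 : v = m2 u
      · -- common edge
        have hW0 : ∀ a, ¬ W a u v := by
          rintro a (⟨_, h, _⟩ | ⟨_, h, _⟩ | ⟨h, _⟩ | ⟨h, _, _⟩)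
          · exact h (hu1.symm.trans hu2)
          · exact h (hu1.symm.trans hu2)
          · have := hM₀Q _ _ h
            rw [hu1] at this
            exact hm12 u this
          · rw [hu1] at h
            exact hm12 u h
        rw [if_pos hu1, if_pos hu2, if_neg (hW0 _), if_neg (hW0 _), if_neg (hW0 _),
          if_neg (hW0 _)]
      · have hne : m1 u ≠ m2 u := fun h => hu2 (hu1.trans h)
        have hW1 : ∀ a, W a u v ↔ φ1 u = a := by
          intro a
          constructor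
          · rintro (⟨_, _, h⟩ | ⟨h, _, _⟩ | ⟨h, _⟩ | ⟨h, _, _⟩)
            · exact h
            · exact absurd h hu2
            · have := hM₀Q _ _ h
              rw [hu1] at this
              exact absurd this (hm12 u)
            · rw [hu1] at h
              exact absurd h (hm12 u)
          · intro h
            exact Or.inl ⟨hu1, hne, h⟩
        simp only [hW1]
        rw [eq_one (φ1 u), if_pos hu1, if_neg hu2]
    · by_cases hu2 : v = m2 u
      · have hne : m1 u ≠ m2 u := fun h => hu1 (hu2.trans h.symm)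
        have hW1 : ∀ a, W a u v ↔ φ2 u = a := by
          intro a
          constructor
          · rintro (⟨h, _, _⟩ | ⟨_, _, h⟩ | ⟨h, _⟩ | ⟨h, _, _⟩)
            · exact absurd h hu1
            · exact h
            · have := hM₀Q _ _ h
              rw [hu2] at this
              exact absurd this (hm22 u)
            · rw [hu2] at h
              exact absurd h (hm22 u)
          · intro h
            exact Or.inr (Or.inl ⟨hu2, hne, h⟩)
        simp only [hW1]
        rw [eq_one (φ2 u), if_neg hu1, if_pos hu2]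
      · have hQuv : Q.Adj u v := (hQ _ _).2 ⟨huv, hu1, hu2⟩
        by_cases hM : M₀.Adj u v
        · have hW1 : ∀ a, W a u v ↔ B a (κ u) = β u := by
            intro a
            constructor
            · rintro (⟨h, _, _⟩ | ⟨h, _, _⟩ | ⟨_, h⟩ | ⟨_, h, _⟩)
              · exact absurd h hu1
              · exact absurd h hu2
              · exact h
              · exact absurd hM h
            · intro h
              exact Or.inr (Or.inr (Or.inl ⟨hM, h⟩))
          simp only [hW1]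
          rw [B_two (κ u) (hκ0 u) (β u), if_neg hu1, if_neg hu2]
        · have hW1 : ∀ a, W a u v ↔ B a (κ u) = β u + 1 := by
            intro a
            constructor
            · rintro (⟨h, _, _⟩ | ⟨h, _, _⟩ | ⟨h, _⟩ | ⟨_, _, h⟩)
              · exact absurd h hu1
              · exact absurd h hu2
              · exact absurd h hM
              · exact h
            · intro h
              exact Or.inr (Or.inr (Or.inr ⟨hQuv, hM, h⟩))
          simp only [hW1]
          rw [B_two (κ u) (hκ0 u) (β u + 1), if_neg hu1, if_neg hu2]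


theorem main_theorem [Fintype V] (G : SimpleGraph V) [DecidableRel G.Adj]
    (hG : G.IsRegularOfDegree 3) (M₁ M₂ M₀ : G.Subgraph)
    (h₁ : M₁.IsPerfectMatching) (h₂ : M₂.IsPerfectMatching) (h₀ : M₀.IsMatching)
    (hdis : ∀ u v, M₀.Adj u v → ¬ M₁.Adj u v ∧ ¬ M₂.Adj u v)
    (hcov : ∀ v, ¬ OnD M₁ M₂ v → v ∈ M₀.verts)
    (hsp : ∀ x₁ y₁, Special M₁ M₂ M₀ x₁ y₁ →
      ∃ x₂ y₂, Special M₁ M₂ M₀ x₂ y₂ ∧ x₂ ≠ x₁ ∧
        (∀ x y, Special M₁ M₂ M₀ x y → (sepG M₁ M₂).Reachable x x₁ → x = x₁ ∨ x = x₂) ∧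
        Alternating M₁ M₂ x₁ y₁ x₂ y₂) :
    ∃ P : Fin 6 → G.Subgraph, (∀ i, (P i).IsPerfectMatching) ∧ P 0 = M₁ ∧ P 1 = M₂ ∧
      ∀ u v, G.Adj u v → {i : Fin 6 | (P i).Adj u v}.ncard = 2 := by
  classical
  obtain ⟨m1, hm1, h1, h1', ha1⟩ := pm_fun M₁ h₁
  obtain ⟨m2, hm2, h2, h2', ha2⟩ := pm_fun M₂ h₂
  have hX1 : ∀ v, m1 v ≠ m2 v → m1 (m1 v) ≠ m2 (m1 v) := by
    intro v hv h
    apply hv
    have : m2 (m1 (m1 v)) = m2 (m2 (m1 v)) := congrArg m2 h
    rw [h1, h2] at this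
    exact this.symm
  have hX2 : ∀ v, m1 v ≠ m2 v → m1 (m2 v) ≠ m2 (m2 v) := by
    intro v hv h
    apply hv
    have : m1 (m1 (m2 v)) = m1 (m2 (m2 v)) := congrArg m1 h
    rw [h1, h2] at this
    exact this.symm
  set D := diffG M₁ M₂ with hDdef
  set Q := restG M₁ M₂ with hQdef
  set H := sepG M₁ M₂ with hHdef
  have hD : ∀ u v, D.Adj u v ↔ (m1 u ≠ m2 u ∧ (v = m1 u ∨ v = m2 u)) := by
    intro u v
    show ((M₁.Adj u v ∧ ¬ M₂.Adj u v) ∨ (M₂.Adj u v ∧ ¬ M₁.Adj u v)) ↔ _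
    rw [hm1, hm2]
    constructor
    · rintro (⟨e1, e2⟩ | ⟨e1, e2⟩)
      · exact ⟨fun h => e2 (e1.trans h), Or.inl e1⟩
      · exact ⟨fun h => e2 (e1.trans h.symm), Or.inr e1⟩
    · rintro ⟨e, e1 | e1⟩
      · exact Or.inl ⟨e1, fun h => e (e1.symm.trans h)⟩
      · exact Or.inr ⟨e1, fun h => e (h.symm.trans e1)⟩
  have hOn : ∀ v, OnD M₁ M₂ v ↔ m1 v ≠ m2 v := by
    intro v
    constructor
    · rintro ⟨w, hw⟩
      exact ((hD _ _).1 hw).1
    · intro h
      exact ⟨m1 v, (hD _ _).2 ⟨h, Or.inl rfl⟩⟩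
  have hQ : ∀ u v, Q.Adj u v ↔ G.Adj u v ∧ v ≠ m1 u ∧ v ≠ m2 u := by
    intro u v
    show (G.Adj u v ∧ ¬ M₁.Adj u v ∧ ¬ M₂.Adj u v) ↔ _
    rw [hm1, hm2]
  have hDH : D ≤ H := by
    intro u v huv
    show G.Adj u v ∧ ¬ (M₁.Adj u v ∧ M₂.Adj u v)
    rcases huv with ⟨e1, e2⟩ | ⟨e1, e2⟩
    · exact ⟨e1.adj_sub, fun h => e2 h.2⟩
    · exact ⟨e1.adj_sub, fun h => e2 h.1⟩
  have hQH : Q ≤ H := by
    intro u v huv
    exact ⟨huv.1, fun h => huv.2.1 h.1⟩
  -- degrees
  have hdeg3 : ∀ v, (G.neighborSet v).ncard = 3 := by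
    intro v
    have := hG v
    rw [← this, Set.ncard_eq_toFinset_card']
    rfl
  have hQn : ∀ v, Q.neighborSet v = G.neighborSet v \ {m1 v, m2 v} := by
    intro v
    ext w
    simp only [SimpleGraph.mem_neighborSet, hQ, Set.mem_sdiff, Set.mem_insert_iff,
      Set.mem_singleton_iff, not_or]
  have hsubn : ∀ v, ({m1 v, m2 v} : Set V) ⊆ G.neighborSet v := by
    intro v w hw
    rcases hw with h | h
    · rw [h]; exact ha1 v
    · rw [Set.mem_singleton_iff.1 h]; exact ha2 v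
  have hq1 : ∀ v, m1 v ≠ m2 v → (Q.neighborSet v).ncard = 1 := by
    intro v hv
    rw [hQn, Set.ncard_sdiff (hsubn v) (Set.toFinite _), hdeg3, Set.ncard_pair hv]
  have hq2 : ∀ v, m1 v = m2 v → (Q.neighborSet v).ncard = 2 := by
    intro v hv
    rw [hQn, Set.ncard_sdiff (hsubn v) (Set.toFinite _), hdeg3, hv]
    simp
  -- the other end of a path of `Q`
  have hends : ∀ x, m1 x ≠ m2 x → ∃ y, y ≠ x ∧ m1 y ≠ m2 y ∧ Q.Reachable x y ∧
      ∀ z, m1 z ≠ m2 z → Q.Reachable x z → z = x ∨ z = y := by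
    intro x hx
    obtain ⟨y, e1, e2, e3, e4⟩ := ends_exist Q {v | m1 v ≠ m2 v} (fun v hv => hq1 v hv)
      (fun v hv => hq2 v (by by_contra h; exact hv h)) x hx
    exact ⟨y, e1, e2, e3, e4⟩
  let τ : V → V := fun x => if h : m1 x ≠ m2 x then (hends x h).choose else x
  have hτ : ∀ x, m1 x ≠ m2 x → τ x ≠ x ∧ m1 (τ x) ≠ m2 (τ x) ∧ Q.Reachable x (τ x) ∧
      ∀ z, m1 z ≠ m2 z → Q.Reachable x z → z = x ∨ z = τ x := by
    intro x hx
    have e : τ x = (hends x hx).choose := dif_pos hx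
    rw [e]
    exact (hends x hx).choose_spec
  have hττ : ∀ x, m1 x ≠ m2 x → τ (τ x) = x := by
    intro x hx
    obtain ⟨e1, e2, e3, _⟩ := hτ x hx
    obtain ⟨_, _, _, f4⟩ := hτ (τ x) e2
    rcases f4 x hx e3.symm with h | h
    · exact absurd h.symm e1
    · exact h.symm
  let δ : V → ZMod 2 := fun v => if v ∈ M₀.verts then 0 else 1
  have hδ0 : ∀ v, v ∈ M₀.verts → δ v = 0 := fun v hv => if_pos hv
  have hδ1 : ∀ v, v ∉ M₀.verts → δ v = 1 := fun v hv => if_neg hv
  -- local solutions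
  have hloc : ∀ z₀ : V, ∃ φ1 φ2 : V → F4, ∀ v, m1 v ≠ m2 v → H.Reachable v z₀ →
      (φ1 (m1 v) = φ1 v ∧ φ2 (m2 v) = φ2 v ∧ φ1 v + φ2 v ≠ 0 ∧
        φ1 (τ v) + φ2 (τ v) = φ1 v + φ2 v ∧
        B (φ1 v + φ1 (τ v)) (φ1 v + φ2 v) = δ v + δ (τ v)) := by
    intro z₀
    by_cases hex : ∃ x₁ y₁, Special M₁ M₂ M₀ x₁ y₁ ∧ H.Reachable x₁ z₀
    · obtain ⟨x₁, y₁, hs1, hr1⟩ := hex
      obtain ⟨x₂, y₂, hs2, hne, huniq, hcirc, hsep⟩ := hsp x₁ y₁ hs1
      have hx1 : m1 x₁ ≠ m2 x₁ := (hOn _).1 hs1.1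
      have hx2 : m1 x₂ ≠ m2 x₂ := (hOn _).1 hs2.1
      have hy1 : y₁ = τ x₁ := by
        rcases (hτ x₁ hx1).2.2.2 y₁ ((hOn _).1 hs1.2.1) hs1.2.2.1 with h | h
        · exfalso
          apply hs1.2.2.2.1
          rw [← h]
          exact hs1.2.2.2.2
        · exact h
      have hy2 : y₂ = τ x₂ := by
        rcases (hτ x₂ hx2).2.2.2 y₂ ((hOn _).1 hs2.2.1) hs2.2.2.1 with h | h
        · exfalso
          apply hs2.2.2.2.1
          rw [← h]
          exact hs2.2.2.2.2
        · exact h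
      subst hy1
      subst hy2
      have hx2τ : x₂ ≠ τ x₁ := by
        intro h
        apply hs2.2.2.2.1
        rw [h]
        exact hs1.2.2.2.2
      have hr2 : H.Reachable x₂ z₀ := by
        rcases (hcirc x₁ hs1.1 (SimpleGraph.Reachable.refl _)).2 with h | h
        · exact (h.mono hDH).symm.trans hr1
        · exact ((hτ x₂ hx2).2.2.1.mono hQH).trans ((h.mono hDH).symm.trans hr1)
      obtain ⟨φ1, φ2, hφ⟩ := local_solution m1 m2 τ h1 h1' h2 h2'
        (fun v hv => ⟨hττ v hv, (hτ v hv).1, (hτ v hv).2.1⟩) D hD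
        (fun v => H.Reachable v z₀)
        (fun v hv hr => by
          have : H.Adj (m1 v) v := hDH (show D.Adj (m1 v) v by
            rw [hD]; exact ⟨hX1 v hv, Or.inl (h1 v).symm⟩)
          exact this.reachable.trans hr)
        (fun v hv hr => by
          have : H.Adj (m2 v) v := hDH (show D.Adj (m2 v) v by
            rw [hD]; exact ⟨hX2 v hv, Or.inr (h2 v).symm⟩)
          exact this.reachable.trans hr)
        (fun v hv hr => ((hτ v hv).2.2.1.mono hQH).symm.trans hr)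
        x₁ x₂ hx1 hr1 hx2 hr2 hne hx2τ
        (fun z hz hr => hcirc z ((hOn z).2 hz) (hr.trans hr1.symm))
        hsep
      refine ⟨φ1, φ2, fun v hv hr => ?_⟩
      obtain ⟨g1, g2, g3, g4, g5⟩ := hφ v hv hr
      refine ⟨g1, g2, g3, g4, ?_⟩
      apply zmod2_iff
      rw [g5]
      constructor
      · rintro (h | h | h | h)
        · subst h; rw [hδ1 _ hs1.2.2.2.1, hδ0 _ hs1.2.2.2.2, add_zero]
        · subst h
          rw [hττ _ hx1, hδ1 _ hs1.2.2.2.1, hδ0 _ hs1.2.2.2.2, zero_add]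
        · subst h; rw [hδ1 _ hs2.2.2.2.1, hδ0 _ hs2.2.2.2.2, add_zero]
        · subst h
          rw [hττ _ hx2, hδ1 _ hs2.2.2.2.1, hδ0 _ hs2.2.2.2.2, zero_add]
      · intro hd
        by_cases hv0 : v ∈ M₀.verts
        · have hτv : τ v ∉ M₀.verts := by
            intro h
            rw [hδ0 _ hv0, hδ0 _ h, add_zero] at hd
            exact absurd hd (by decide)
          have hspv : Special M₁ M₂ M₀ (τ v) v :=
            ⟨(hOn _).2 (hτ v hv).2.1, (hOn _).2 hv, (hτ v hv).2.2.1.symm, hτv, hv0⟩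
          have hr' : H.Reachable (τ v) x₁ :=
            (((hτ v hv).2.2.1.mono hQH).symm.trans hr).trans hr1.symm
          rcases huniq _ _ hspv hr' with h | h
          · right; left; rw [← h, hττ v hv]
          · right; right; right; rw [← h, hττ v hv]
        · have hτv : τ v ∈ M₀.verts := by
            by_contra h
            rw [hδ1 _ hv0, hδ1 _ h] at hd
            exact absurd hd (by decide)
          have hspv : Special M₁ M₂ M₀ v (τ v) :=
            ⟨(hOn _).2 hv, (hOn _).2 (hτ v hv).2.1, (hτ v hv).2.2.1, hv0, hτv⟩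
          rcases huniq _ _ hspv (hr.trans hr1.symm) with h | h
          · left; exact h
          · right; right; left; exact h
    · have hne10 : (0 : F4) + (1, 0) ≠ 0 := by decide
      refine ⟨fun _ => 0, fun _ => (1, 0), fun v hv hr => ⟨rfl, rfl, hne10, rfl, ?_⟩⟩
      have hB : B ((0 : F4) + 0) (0 + (1, 0)) = 0 := by decide
      rw [hB]
      by_cases hv0 : v ∈ M₀.verts
      · have hτv : τ v ∈ M₀.verts := by
          by_contra h
          exact hex ⟨τ v, v, ⟨(hOn _).2 (hτ v hv).2.1, (hOn _).2 hv, (hτ v hv).2.2.1.symm, h, hv0⟩,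
            ((hτ v hv).2.2.1.mono hQH).symm.trans hr⟩
        rw [hδ0 _ hv0, hδ0 _ hτv, add_zero]
      · have hτv : τ v ∉ M₀.verts := by
          intro h
          exact hex ⟨v, τ v, ⟨(hOn _).2 hv, (hOn _).2 (hτ v hv).2.1, (hτ v hv).2.2.1, hv0, h⟩, hr⟩
        rw [hδ1 _ hv0, hδ1 _ hτv]
        decide
  choose Φ1 Φ2 hΦ using hloc
  let rep : V → V := fun v => (H.connectedComponentMk v).out
  have hrep : ∀ v, H.Reachable v (rep v) := by
    intro v
    have : H.connectedComponentMk (rep v) = H.connectedComponentMk v := Quot.out_eq _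
    exact (SimpleGraph.ConnectedComponent.exact this).symm
  have hrepeq : ∀ u v, H.Reachable u v → rep u = rep v := by
    intro u v huv
    have : H.connectedComponentMk u = H.connectedComponentMk v :=
      SimpleGraph.ConnectedComponent.sound huv
    simp only [rep, this]
  let φ1 : V → F4 := fun v => Φ1 (rep v) v
  let φ2 : V → F4 := fun v => Φ2 (rep v) v
  have hφ : ∀ v, m1 v ≠ m2 v →
      (φ1 (m1 v) = φ1 v ∧ φ2 (m2 v) = φ2 v ∧ φ1 v + φ2 v ≠ 0 ∧
        φ1 (τ v) + φ2 (τ v) = φ1 v + φ2 v ∧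
        B (φ1 v + φ1 (τ v)) (φ1 v + φ2 v) = δ v + δ (τ v)) := by
    intro v hv
    have e1 : rep (m1 v) = rep v := by
      apply hrepeq
      have : H.Adj (m1 v) v := hDH (show D.Adj (m1 v) v by
            rw [hD]; exact ⟨hX1 v hv, Or.inl (h1 v).symm⟩)
      exact this.reachable
    have e2 : rep (m2 v) = rep v := by
      apply hrepeq
      have : H.Adj (m2 v) v := hDH (show D.Adj (m2 v) v by
            rw [hD]; exact ⟨hX2 v hv, Or.inr (h2 v).symm⟩)
      exact this.reachable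
    have e3 : rep (τ v) = rep v := hrepeq _ _ ((hτ v hv).2.2.1.mono hQH).symm
    simp only [φ1, φ2, e1, e2, e3]
    exact hΦ (rep v) v hv (hrep v)
  -- the functions κ and β, constant on components of `Q`
  let pick : Q.ConnectedComponent → V := fun c =>
    if h : ∃ x, m1 x ≠ m2 x ∧ Q.connectedComponentMk x = c then h.choose else c.out
  have hpick : ∀ v, m1 v ≠ m2 v → m1 (pick (Q.connectedComponentMk v)) ≠
      m2 (pick (Q.connectedComponentMk v)) ∧
      (pick (Q.connectedComponentMk v) = v ∨ pick (Q.connectedComponentMk v) = τ v) := by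
    intro v hv
    have hh : ∃ x, m1 x ≠ m2 x ∧ Q.connectedComponentMk x = Q.connectedComponentMk v :=
      ⟨v, hv, rfl⟩
    have e : pick (Q.connectedComponentMk v) = hh.choose := dif_pos hh
    have hspec := hh.choose_spec
    rw [← e] at hspec
    refine ⟨hspec.1, ?_⟩
    exact (hτ v hv).2.2.2 _ hspec.1 (SimpleGraph.ConnectedComponent.exact hspec.2).symm
  let κ : V → F4 := fun v =>
    if m1 (pick (Q.connectedComponentMk v)) ≠ m2 (pick (Q.connectedComponentMk v)) then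
      φ1 (pick (Q.connectedComponentMk v)) + φ2 (pick (Q.connectedComponentMk v)) else (1, 0)
  let β : V → ZMod 2 := fun v =>
    B (φ1 (pick (Q.connectedComponentMk v))) (κ v) + 1 + δ (pick (Q.connectedComponentMk v))
  have hκ0 : ∀ v, κ v ≠ 0 := by
    intro v
    by_cases h : m1 (pick (Q.connectedComponentMk v)) ≠ m2 (pick (Q.connectedComponentMk v))
    · simp only [κ, if_pos h]
      exact (hφ _ h).2.2.1
    · simp only [κ, if_neg h]
      decide
  have hκQ : ∀ u v, Q.Adj u v → κ v = κ u ∧ β v = β u := by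
    intro u v huv
    have : Q.connectedComponentMk v = Q.connectedComponentMk u :=
      (SimpleGraph.ConnectedComponent.connectedComponentMk_eq_of_adj huv).symm
    constructor
    · simp only [κ, this]
    · simp only [β, κ, this]
  have hκ1 : ∀ v, m1 v ≠ m2 v → κ v = φ1 v + φ2 v := by
    intro v hv
    obtain ⟨e1, e2⟩ := hpick v hv
    simp only [κ, if_pos e1]
    rcases e2 with e | e
    · rw [e]
    · rw [e]; exact (hφ v hv).2.2.2.1
  have hβ1 : ∀ v, m1 v ≠ m2 v → β v = B (φ1 v) (κ v) + 1 + δ v := by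
    intro v hv
    obtain ⟨e1, e2⟩ := hpick v hv
    rcases e2 with e | e
    · simp only [β, e]
    · have h5 := (hφ v hv).2.2.2.2
      rw [← hκ1 v hv, B_add_left] at h5
      simp only [β, e]
      have hd := add_self2 (δ (τ v))
      have hB := add_self2 (B (φ1 v) (κ v))
      linear_combination h5 + hd - hB
  exact assemble M₁ M₂ M₀ h₁ h₂ m1 m2 hm1 hm2 h1 h2 ha1 ha2 hX1 hX2 Q hQ hq1 hq2 h₀
    (fun u v huv => (hQ _ _).2 ⟨huv.adj_sub, fun h => (hdis u v huv).1 ((hm1 _ _).2 h),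
      fun h => (hdis u v huv).2 ((hm2 _ _).2 h)⟩)
    (fun v hv => hcov v (fun h => (hOn v).1 h hv))
    φ1 φ2 κ β δ hδ0 hδ1 (fun v hv => (hφ v hv).1) (fun v hv => (hφ v hv).2.1) hκ0 hκQ hκ1 hβ1

end Pool.Agent.H416R2.BF
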