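import Pool.Agent.H416R2.KleinCert

set_option autoImplicit false

namespace Pool.Agent.H416R2.KleinCert

/-- test a bit -/
def tb (N i : ℕ) : Bool := Nat.beq ((N >>> i) % 2) 1

/-- base 4 digit -/
def dg (N v : ℕ) : ℕ := (N >>> (2 * v)) % 4

def adjB (a b : ℕ) : Bool := tb AM (49 * a + b)
def inS (a b : ℕ) : Bool := tb SM (49 * a + b)

def edgesL : List (ℕ × ℕ) := certs.map Prod.fst

def eqP (e f : ℕ × ℕ) : Bool := Nat.beq e.1 f.1 && Nat.beq e.2 f.2

def okCol (e : ℕ × ℕ) (N : ℕ) : Bool :=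
  ((List.range 49).all fun v => Nat.blt (dg N v) 3) &&
  edgesL.all fun f => eqP f e || !(Nat.beq (dg N f.1) (dg N f.2))

def okPairs (Ls : List ℕ) : Bool :=
  (List.range 49).all fun y => (List.range y).all fun x =>
    adjB x y || (if inS x y then Ls.any (fun N => Nat.beq (dg N x) (dg N y))
      else Ls.any (fun N => !(Nat.beq (dg N x) (dg N y))))

def okSelf (e : ℕ × ℕ) (Ls : List ℕ) : Bool :=
  Ls.any (fun N => Nat.beq (dg N e.1) (dg N e.2))

def okAll : Bool :=
  certs.all fun p => p.2.all (okCol p.1) && okPairs p.2 && okSelf p.1 p.2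

set_option maxRecDepth 100000 in
theorem okAll_true : okAll = true := by decide +kernel

def symmOK : Bool :=
  (List.range 49).all fun a => (List.range 49).all fun b =>
    (adjB a b == adjB b a) && (inS a b == inS b a) && !(adjB a a)

theorem symmOK_true : symmOK = true := by decide +kernel

def memOK : Bool :=
  (List.range 49).all fun b => (List.range b).all fun a =>
    !(adjB a b) || edgesL.any (fun f => eqP f (a, b))

theorem memOK_true : memOK = true := by decide +kernel

theorem adj_symm (a b : ℕ) (ha : a < 49) (hb : b < 49) : adjB a b = adjB b a := by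
  have h := symmOK_true
  simp only [symmOK, List.all_eq_true, List.mem_range, Bool.and_eq_true, beq_iff_eq] at h
  exact (h a ha b hb).1.1

theorem inS_symm (a b : ℕ) (ha : a < 49) (hb : b < 49) : inS a b = inS b a := by
  have h := symmOK_true
  simp only [symmOK, List.all_eq_true, List.mem_range, Bool.and_eq_true, beq_iff_eq] at h
  exact (h a ha b hb).1.2

theorem adj_irrefl (a : ℕ) (ha : a < 49) : adjB a a = false := by
  have h := symmOK_true
  simp only [symmOK, List.all_eq_true, List.mem_range, Bool.and_eq_true, beq_iff_eq,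
    Bool.not_eq_true'] at h
  exact (h a ha a ha).2

/-- The 7 by 7 quadrangulation of the Klein bottle. -/
def G : SimpleGraph (Fin 49) where
  Adj a b := adjB a.1 b.1 = true
  symm := ⟨fun a b h => by rw [adj_symm _ _ b.2 a.2]; exact h⟩
  loopless := ⟨fun a h => by
    rw [adj_irrefl _ a.2] at h
    exact Bool.noConfusion h⟩

theorem eqP_iff (e f : ℕ × ℕ) : eqP e f = true ↔ e = f := by
  obtain ⟨a, b⟩ := e
  obtain ⟨c, d⟩ := f
  simp [eqP, Prod.ext_iff]

/-- the colouring encoded by a number -/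
def colF (N : ℕ) (v : Fin 49) : Fin 3 := Fin.ofNat 3 (dg N v.1)

theorem colF_ne_iff {N : ℕ} {a b : Fin 49} (ha : dg N a.1 < 3) (hb : dg N b.1 < 3) :
    colF N a = colF N b ↔ dg N a.1 = dg N b.1 := by
  unfold colF
  rw [Fin.ext_iff]
  simp only [Fin.ofNat_eq_cast, Fin.val_natCast]
  rw [Nat.mod_eq_of_lt ha, Nat.mod_eq_of_lt hb]

/-- a colouring that is proper away from the edge uv -/
def Good (u v : Fin 49) (col : Fin 49 → Fin 3) : Prop :=
  ∀ a b : Fin 49, G.Adj a b → ¬ (a = u ∧ b = v) → ¬ (a = v ∧ b = u) → col a ≠ col b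

theorem Good.symm {u v : Fin 49} {col : Fin 49 → Fin 3} (h : Good u v col) : Good v u col :=
  fun a b hab h1 h2 => h a b hab h2 h1

theorem exists_cert {u v : Fin 49} (huv : G.Adj u v) (hlt : u < v) :
    ∃ p ∈ certs, p.1 = (u.1, v.1) := by
  have h := memOK_true
  simp only [memOK, List.all_eq_true, List.mem_range, Bool.or_eq_true, Bool.not_eq_true',
    List.any_eq_true] at h
  rcases h v.1 v.2 u.1 hlt with h1 | ⟨f, hf, hf2⟩
  · exfalso
    have : adjB u.1 v.1 = true := huv
    rw [h1] at this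
    exact Bool.noConfusion this
  · rw [eqP_iff] at hf2
    unfold edgesL at hf
    rw [List.mem_map] at hf
    obtain ⟨p, hp, hpf⟩ := hf
    exact ⟨p, hp, by rw [hpf, hf2]⟩

theorem cert_good {p : (ℕ × ℕ) × List ℕ} (hp : p ∈ certs) {u v : Fin 49} (hpe : p.1 = (u.1, v.1))
    {N : ℕ} (hN : N ∈ p.2) : (∀ a : Fin 49, dg N a.1 < 3) ∧ Good u v (colF N) := by
  have h := okAll_true
  simp only [okAll, List.all_eq_true, Bool.and_eq_true] at h
  have h1 := (h p hp).1.1 N hN
  simp only [okCol, Bool.and_eq_true, List.all_eq_true, List.mem_range, Bool.or_eq_true] at h1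
  obtain ⟨hlt, hed⟩ := h1
  have hlt' : ∀ a : Fin 49, dg N a.1 < 3 := fun a => by
    have := hlt a.1 a.2
    simpa [Nat.blt_eq] using this
  refine ⟨hlt', ?_⟩
  have main : ∀ a b : Fin 49, a < b → G.Adj a b → ¬ (a = u ∧ b = v) → colF N a ≠ colF N b := by
    intro a b hab hadj hne hc
    rw [colF_ne_iff (hlt' a) (hlt' b)] at hc
    obtain ⟨q, hq, hqe⟩ := exists_cert hadj hab
    have hmem : (a.1, b.1) ∈ edgesL := by
      unfold edgesL
      rw [List.mem_map]
      exact ⟨q, hq, hqe⟩
    rcases hed _ hmem with h2 | h2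
    · rw [eqP_iff, hpe] at h2
      have h3 := Prod.ext_iff.1 h2
      exact hne ⟨Fin.ext h3.1, Fin.ext h3.2⟩
    · simp only [Bool.not_eq_true'] at h2
      rw [← Bool.not_eq_true, Nat.beq_eq] at h2
      exact h2 hc
  intro a b hadj h1 h2
  rcases lt_trichotomy a b with hab | hab | hab
  · exact main a b hab hadj h1
  · subst hab
    exact absurd hadj (G.loopless.irrefl a)
  · exact fun hc => main b a hab hadj.symm (fun hh => h2 ⟨hh.2, hh.1⟩) hc.symm

theorem certS_lt {u v : Fin 49} (huv : G.Adj u v) (hlt : u < v) {x y : Fin 49} (hxy : x < y)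
    (hnadj : ¬ G.Adj x y) (hS : inS x.1 y.1 = true) :
    ∃ col : Fin 49 → Fin 3, Good u v col ∧ col x = col y := by
  obtain ⟨p, hp, hpe⟩ := exists_cert huv hlt
  have h := okAll_true
  simp only [okAll, List.all_eq_true, Bool.and_eq_true] at h
  have h1 := (h p hp).1.2
  simp only [okPairs, List.all_eq_true, List.mem_range, Bool.or_eq_true] at h1
  have h2 := h1 y.1 y.2 x.1 hxy
  rcases h2 with h3 | h3
  · exact absurd h3 hnadj
  · rw [if_pos hS, List.any_eq_true] at h3
    obtain ⟨N, hN, hN2⟩ := h3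
    obtain ⟨hl, hg⟩ := cert_good hp hpe hN
    refine ⟨colF N, hg, ?_⟩
    rw [colF_ne_iff (hl x) (hl y)]
    exact Nat.eq_of_beq_eq_true hN2

theorem certN_lt {u v : Fin 49} (huv : G.Adj u v) (hlt : u < v) {x y : Fin 49} (hxy : x < y)
    (hnadj : ¬ G.Adj x y) (hS : ¬ inS x.1 y.1 = true) :
    ∃ col : Fin 49 → Fin 3, Good u v col ∧ col x ≠ col y := by
  obtain ⟨p, hp, hpe⟩ := exists_cert huv hlt
  have h := okAll_true
  simp only [okAll, List.all_eq_true, Bool.and_eq_true] at h
  have h1 := (h p hp).1.2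
  simp only [okPairs, List.all_eq_true, List.mem_range, Bool.or_eq_true] at h1
  have h2 := h1 y.1 y.2 x.1 hxy
  rcases h2 with h3 | h3
  · exact absurd h3 hnadj
  · rw [if_neg hS, List.any_eq_true] at h3
    obtain ⟨N, hN, hN2⟩ := h3
    obtain ⟨hl, hg⟩ := cert_good hp hpe hN
    refine ⟨colF N, hg, ?_⟩
    rw [Ne, colF_ne_iff (hl x) (hl y)]
    intro hc
    rw [Bool.not_eq_true', ← Bool.not_eq_true, Nat.beq_eq] at hN2
    exact hN2 hc

theorem certSelf_lt {u v : Fin 49} (huv : G.Adj u v) (hlt : u < v) :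
    ∃ col : Fin 49 → Fin 3, Good u v col ∧ col u = col v := by
  obtain ⟨p, hp, hpe⟩ := exists_cert huv hlt
  have h := okAll_true
  simp only [okAll, List.all_eq_true, Bool.and_eq_true] at h
  have h1 := (h p hp).2
  simp only [okSelf, List.any_eq_true] at h1
  obtain ⟨N, hN, hN2⟩ := h1
  obtain ⟨hl, hg⟩ := cert_good hp hpe hN
  refine ⟨colF N, hg, ?_⟩
  rw [colF_ne_iff (hl u) (hl v)]
  have := Nat.eq_of_beq_eq_true hN2
  rw [hpe] at this
  exact this

theorem certS {u v : Fin 49} (huv : G.Adj u v) {x y : Fin 49} (hne : x ≠ y)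
    (hnadj : ¬ G.Adj x y) (hS : inS x.1 y.1 = true) :
    ∃ col : Fin 49 → Fin 3, Good u v col ∧ col x = col y := by
  have key : ∀ u v : Fin 49, G.Adj u v → u < v → 
      ∃ col : Fin 49 → Fin 3, Good u v col ∧ col x = col y := by
    intro u v huv hlt
    rcases lt_or_gt_of_ne hne with h | h
    · exact certS_lt huv hlt h hnadj hS
    · obtain ⟨c, hc, hc2⟩ := certS_lt huv hlt h (fun h' => hnadj h'.symm)
        (by rw [inS_symm _ _ y.2 x.2]; exact hS)
      exact ⟨c, hc, hc2.symm⟩
  rcases lt_trichotomy u v with h | h | h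
  · exact key u v huv h
  · subst h
    exact absurd huv (G.loopless.irrefl u)
  · obtain ⟨c, hc, hc2⟩ := key v u huv.symm h
    exact ⟨c, hc.symm, hc2⟩

theorem certN {u v : Fin 49} (huv : G.Adj u v) {x y : Fin 49} (hne : x ≠ y)
    (hnadj : ¬ G.Adj x y) (hS : ¬ inS x.1 y.1 = true) :
    ∃ col : Fin 49 → Fin 3, Good u v col ∧ col x ≠ col y := by
  have key : ∀ u v : Fin 49, G.Adj u v → u < v → 
      ∃ col : Fin 49 → Fin 3, Good u v col ∧ col x ≠ col y := by
    intro u v huv hlt
    rcases lt_or_gt_of_ne hne with h | h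
    · exact certN_lt huv hlt h hnadj hS
    · obtain ⟨c, hc, hc2⟩ := certN_lt huv hlt h (fun h' => hnadj h'.symm)
        (by rw [inS_symm _ _ y.2 x.2]; exact hS)
      exact ⟨c, hc, hc2.symm⟩
  rcases lt_trichotomy u v with h | h | h
  · exact key u v huv h
  · subst h
    exact absurd huv (G.loopless.irrefl u)
  · obtain ⟨c, hc, hc2⟩ := key v u huv.symm h
    exact ⟨c, hc.symm, hc2⟩

theorem certSelf {u v : Fin 49} (huv : G.Adj u v) :
    ∃ col : Fin 49 → Fin 3, Good u v col ∧ col u = col v := by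
  rcases lt_trichotomy u v with h | h | h
  · exact certSelf_lt huv h
  · subst h
    exact absurd huv (G.loopless.irrefl u)
  · obtain ⟨c, hc, hc2⟩ := certSelf_lt huv.symm h
    exact ⟨c, hc.symm, hc2.symm⟩

/-! ### non-3-colourability by a winding number -/

/-- vertex with coordinates x, y -/
def vtx (x y : Fin 7) : Fin 49 := ⟨x.1 + 7 * y.1, by omega⟩

def st (a b : Fin 3) : ℤ := if b = a then 0 else if b = a + 1 then 1 else -1

theorem st_face : ∀ a b c d : Fin 3, a ≠ b → b ≠ d → c ≠ d → a ≠ c →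
    st a b - st c d = st a c - st b d := by decide

theorem st_anti : ∀ a b : Fin 3, st b a = - st a b := by decide

def W (a : Fin 7 → Fin 3) : ℤ := ∑ i : Fin 7, st (a i) (a (i + 1))

theorem W_step (a b : Fin 7 → Fin 3) (ha : ∀ i, a i ≠ a (i + 1)) (hb : ∀ i, b i ≠ b (i + 1))
    (hab : ∀ i, a i ≠ b i) : W a = W b := by
  have h1 : W a - W b = ∑ i : Fin 7, (st (a i) (b i) - st (a (i + 1)) (b (i + 1))) := by
    unfold W
    rw [← Finset.sum_sub_distrib]
    exact Finset.sum_congr rfl fun i _ => st_face _ _ _ _ (ha i) (hab (i + 1)) (hb i) (hab i)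
  have h2 : ∑ i : Fin 7, st (a (i + 1)) (b (i + 1)) = ∑ i : Fin 7, st (a i) (b i) :=
    Equiv.sum_comp (Equiv.addRight (1 : Fin 7)) (fun i => st (a i) (b i))
  rw [Finset.sum_sub_distrib, h2, sub_self] at h1
  linarith

theorem W_neg (a : Fin 7 → Fin 3) : W (fun i => a (-i)) = - W a := by
  unfold W
  rw [← Finset.sum_neg_distrib]
  have h := Equiv.sum_comp ((Equiv.neg (Fin 7)).trans (Equiv.addRight (-1 : Fin 7)))
    (fun i : Fin 7 => - st (a i) (a (i + 1)))
  rw [← h]
  refine Finset.sum_congr rfl fun i _ => ?_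
  simp only [Equiv.trans_apply, Equiv.neg_apply, Equiv.coe_addRight]
  rw [← st_anti]
  have e1 : -i + -1 + 1 = -i := by abel
  have e2 : -(i + 1) = -i + -1 := by abel
  rw [e1, e2]

theorem st_odd : ∀ a b : Fin 3, a ≠ b → st a b = 1 ∨ st a b = -1 := by decide

theorem W_ne_zero (a : Fin 7 → Fin 3) (ha : ∀ i, a i ≠ a (i + 1)) : W a ≠ 0 := by
  unfold W
  have h : ∀ i : Fin 7, st (a i) (a (i + 1)) = 1 ∨ st (a i) (a (i + 1)) = -1 :=
    fun i => st_odd _ _ (ha i)
  have h0 := h 0
  have h1 := h 1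
  have h2 := h 2
  have h3 := h 3
  have h4 := h 4
  have h5 := h 5
  have h6 := h 6
  rw [Fin.sum_univ_seven]
  omega

theorem adj_h : ∀ x y : Fin 7, adjB (vtx x y).1 (vtx (x + 1) y).1 = true := by decide +kernel

theorem adj_v : ∀ x : Fin 7, ∀ y : Fin 6,
    adjB (vtx x y.castSucc).1 (vtx x y.succ).1 = true := by decide +kernel

theorem adj_w : ∀ x : Fin 7, adjB (vtx x 6).1 (vtx (-x) 0).1 = true := by decide +kernel

theorem not_colorable : ¬ G.Colorable 3 := by
  rintro ⟨c⟩
  have hh : ∀ x y : Fin 7, c (vtx x y) ≠ c (vtx (x + 1) y) := fun x y => c.valid (adj_h x y)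
  have hv : ∀ x : Fin 7, ∀ y : Fin 6, c (vtx x y.castSucc) ≠ c (vtx x y.succ) :=
    fun x y => c.valid (adj_v x y)
  have hw : ∀ x : Fin 7, c (vtx x 6) ≠ c (vtx (-x) 0) := fun x => c.valid (adj_w x)
  have hs : ∀ y : Fin 6, W (fun x => c (vtx x y.castSucc)) = W (fun x => c (vtx x y.succ)) :=
    fun y => W_step _ _ (fun x => hh x _) (fun x => hh x _) (fun x => hv x y)
  have h0 := hs 0
  have h1 := hs 1
  have h2 := hs 2
  have h3 := hs 3
  have h4 := hs 4
  have h5 := hs 5
  have hlast : W (fun x => c (vtx x 6)) = W (fun x => c (vtx (-x) 0)) := by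
    refine W_step _ _ (fun x => hh x _) (fun x => ?_) (fun x => hw x)
    have := hh (-(x + 1)) 0
    have e : -(x + 1) + 1 = -x := by abel
    rw [e] at this
    exact this.symm
  have hneg : W (fun x => c (vtx (-x) 0)) = - W (fun x => c (vtx x 0)) :=
    W_neg (fun x => c (vtx x 0))
  have hne := W_ne_zero (fun x => c (vtx x 0)) (fun x => hh x 0)
  have e0 : (0 : Fin 6).castSucc = (0 : Fin 7) := rfl
  have e1 : (0 : Fin 6).succ = (1 : Fin 6).castSucc := rfl
  have e2 : (1 : Fin 6).succ = (2 : Fin 6).castSucc := rfl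
  have e3 : (2 : Fin 6).succ = (3 : Fin 6).castSucc := rfl
  have e4 : (3 : Fin 6).succ = (4 : Fin 6).castSucc := rfl
  have e5 : (4 : Fin 6).succ = (5 : Fin 6).castSucc := rfl
  have e6 : (5 : Fin 6).succ = (6 : Fin 7) := rfl
  rw [e0, e1] at h0
  rw [e2] at h1
  rw [e3] at h2
  rw [e4] at h3
  rw [e5] at h4
  rw [e6] at h5
  apply hne
  linarith

/-! ### no triangles -/

def triOK : Bool :=
  edgesL.all fun e => (List.range 49).all fun c => !(adjB e.1 c && adjB e.2 c)

theorem triOK_true : triOK = true := by decide +kernel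

theorem no_tri_lt {a b c : Fin 49} (hlt : a < b) (hab : G.Adj a b) (hac : G.Adj a c)
    (hbc : G.Adj b c) : False := by
  obtain ⟨q, hq, hqe⟩ := exists_cert hab hlt
  have hmem : (a.1, b.1) ∈ edgesL := by
    unfold edgesL
    rw [List.mem_map]
    exact ⟨q, hq, hqe⟩
  have h := triOK_true
  simp only [triOK, List.all_eq_true, List.mem_range, Bool.not_eq_true', Bool.and_eq_false_iff]
    at h
  rcases h _ hmem c.1 c.2 with h1 | h1
  · have : adjB a.1 c.1 = true := hac
    rw [this] at h1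
    exact Bool.noConfusion h1
  · have : adjB b.1 c.1 = true := hbc
    rw [this] at h1
    exact Bool.noConfusion h1

theorem no_tri {a b c : Fin 49} (hab : G.Adj a b) (hac : G.Adj a c) (hbc : G.Adj b c) : False := by
  rcases lt_trichotomy a b with h | h | h
  · exact no_tri_lt h hab hac hbc
  · subst h
    exact G.loopless.irrefl a hab
  · exact no_tri_lt h hab.symm hbc hac

theorem cliqueFree_three : G.CliqueFree 3 := by
  intro s hs
  rw [SimpleGraph.is3Clique_iff] at hs
  obtain ⟨a, b, c, hab, hac, hbc, _⟩ := hs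
  exact no_tri hab hac hbc

end Pool.Agent.H416R2.KleinCert
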